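import Pool.Agent.Helper98x.LapExt.Hull

/-!
# Threshold graphs are determined by their Laplacian spectra
-/

set_option autoImplicit false

open Finset Polynomial

namespace Pool.Agent.Helper98x.LapExt

/-- a positive Laplacian eigenvalue is at most the size of some component -/
theorem comp_size {V : Type*} [Fintype V] [DecidableEq V] (G : SimpleGraph V)
    [DecidableRel G.Adj] (x : V → ℝ) (r : ℝ) (hr : 0 < r)
    (hx : ∀ v, ∑ u, (if G.Adj v u then (1 : ℝ) else 0) * (x v - x u) = r * x v)
    (v0 : V) (hv0 : x v0 ≠ 0) (C : Finset V) (hC : ∀ u, u ∈ C ↔ G.Reachable v0 u) :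
    r ≤ (C.card : ℝ) := by
  have h0 : v0 ∈ C := (hC v0).mpr (SimpleGraph.Reachable.refl v0)
  obtain ⟨v, hv, hmax⟩ := C.exists_max_image x ⟨v0, h0⟩
  obtain ⟨w, hw, hmin⟩ := C.exists_min_image x ⟨v0, h0⟩
  have hadj : ∀ a b, a ∈ C → G.Adj a b → b ∈ C := by
    intro a b ha hab
    rw [hC] at ha ⊢
    exact ha.trans hab.reachable
  have hlt : x w < x v := by
    by_contra hcon
    push Not at hcon
    have hconst : ∀ u ∈ C, x u = x v := fun u hu =>
      le_antisymm (hmax u hu) (hcon.trans (hmin u hu))
    have h1 := hx v0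
    rw [sum_eq_zero] at h1
    · rcases mul_eq_zero.mp h1.symm with h | h
      · exact hr.ne' h
      · exact hv0 h
    · intro u _
      split_ifs with hu
      · rw [hconst u (hadj v0 u h0 hu), hconst v0 h0, sub_self, mul_zero]
      · rw [zero_mul]
  have h1 : r * (x v - x w) = ∑ u, (if G.Adj v u then (1 : ℝ) else 0) * (x v - x u) +
      ∑ u, (if G.Adj w u then (1 : ℝ) else 0) * (x u - x w) := by
    have h2 : ∑ u, (if G.Adj w u then (1 : ℝ) else 0) * (x u - x w) = -(r * x w) := by
      rw [← hx w, ← sum_neg_distrib]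
      exact sum_congr rfl fun u _ => by ring
    rw [hx v, h2]; ring
  have h2 : ∑ u, (if G.Adj v u then (1 : ℝ) else 0) * (x v - x u) ≤ ∑ u ∈ C, (x v - x u) := by
    rw [← sum_subset (subset_univ C)]
    · refine sum_le_sum fun u hu => ?_
      split_ifs
      · rw [one_mul]
      · rw [zero_mul]; linarith [hmax u hu]
    · intro u _ hu
      rw [if_neg fun h => hu (hadj v u hv h), zero_mul]
  have h3 : ∑ u, (if G.Adj w u then (1 : ℝ) else 0) * (x u - x w) ≤ ∑ u ∈ C, (x u - x w) := by
    rw [← sum_subset (subset_univ C)]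
    · refine sum_le_sum fun u hu => ?_
      split_ifs
      · rw [one_mul]
      · rw [zero_mul]; linarith [hmin u hu]
    · intro u _ hu
      rw [if_neg fun h => hu (hadj w u hw h), zero_mul]
  have h4 : ∑ u ∈ C, (x v - x u) + ∑ u ∈ C, (x u - x w) = C.card * (x v - x w) := by
    rw [← sum_add_distrib, ← nsmul_eq_mul, ← sum_const]
    exact sum_congr rfl fun u _ => by ring
  have h5 : r * (x v - x w) ≤ C.card * (x v - x w) := by linarith
  exact le_of_mul_le_mul_right h5 (by linarith)

/-- an eigenvector for every root of the characteristic polynomial -/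
theorem exists_eigvec {V : Type*} [Fintype V] [DecidableEq V] (G : SimpleGraph V)
    [DecidableRel G.Adj] (r : ℝ) (hr : (G.lapMatrix ℝ).charpoly.eval r = 0) :
    ∃ x : V → ℝ, x ≠ 0 ∧
      ∀ v, ∑ u, (if G.Adj v u then (1 : ℝ) else 0) * (x v - x u) = r * x v := by
  rw [Matrix.eval_charpoly] at hr
  obtain ⟨x, hx0, hx⟩ := Matrix.exists_mulVec_eq_zero_iff.mpr hr
  refine ⟨x, hx0, fun v => ?_⟩
  rw [← Pool.Agent.Helper827.Brou.lap_apply]
  have h1 := congrFun hx v
  rw [Matrix.sub_mulVec] at h1
  simp only [Matrix.scalar_apply, Pi.sub_apply, Matrix.mulVec_diagonal, Pi.zero_apply] at h1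
  linarith

theorem card_nonzero_eigs {V : Type*} [Fintype V] [DecidableEq V] {A : Matrix V V ℝ}
    (hA : A.IsHermitian) {m : ℕ} (l : Fin m → ℝ) (hc : A.charpoly = ∏ i, (X - C (l i))) :
    Fintype.card {i // hA.eigenvalues i ≠ 0} = (univ.filter fun i => l i ≠ 0).card := by
  have h1 := hA.roots_charpoly_eq_eigenvalues
  have h2 : A.charpoly.roots = Multiset.map l Finset.univ.val := by
    rw [hc, Polynomial.roots_prod _ _ (Finset.prod_ne_zero_iff.mpr fun i _ => X_sub_C_ne_zero _)]
    simp
  rw [h2] at h1
  have h3 := congrArg (fun s => (s.filter fun r : ℝ => r ≠ 0).card) h1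
  simp only [Multiset.filter_map, Multiset.card_map] at h3
  rw [Fintype.card_subtype]
  exact h3.symm

/-- number of components from below -/
theorem components_ge {V : Type*} [Fintype V] [DecidableEq V] (G : SimpleGraph V)
    [DecidableRel G.Adj] [Fintype G.ConnectedComponent] {m : ℕ} (l : Fin m → ℝ)
    (hc : (G.lapMatrix ℝ).charpoly = ∏ i, (X - C (l i))) :
    Fintype.card V ≤ Fintype.card G.ConnectedComponent + (univ.filter fun i => l i ≠ 0).card := by
  have h1 := (G.isHermitian_lapMatrix ℝ).rank_eq_card_non_zero_eigs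
  rw [card_nonzero_eigs _ l hc] at h1
  have h2 := LinearMap.finrank_range_add_finrank_ker (Matrix.toLin' (G.lapMatrix ℝ))
  rw [← G.card_connectedComponent_eq_finrank_ker_toLin'_lapMatrix] at h2
  have h3 : Module.finrank ℝ (LinearMap.range (Matrix.toLin' (G.lapMatrix ℝ))) =
      (G.lapMatrix ℝ).rank := rfl
  rw [h3, h1, Module.finrank_fintype_fun_eq_card] at h2
  rw [← h2, add_comm]
  apply le_of_eq
  congr!

theorem exists_isolated {V : Type*} [Fintype V] [DecidableEq V] (G : SimpleGraph V)
    [DecidableRel G.Adj] (N : ℕ) (hV : Fintype.card V = N + 2) (D : ℕ → Bool)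
    (hD : D (N + 1) = false)
    (hc : (G.lapMatrix ℝ).charpoly = ∏ j : Fin (N + 2), (X - C (nu D (N + 1) j))) :
    ∃ v, ∀ u, ¬ G.Adj v u := by
  classical
  by_contra hcon
  push Not at hcon
  -- last dominating index
  obtain ⟨M, hM1, hM2, hM3⟩ : ∃ M : ℕ, M ≤ N ∧ (∀ j, M < j → j ≤ N + 1 → D j = false) ∧
      (0 < M → D M = true) := by
    by_cases h : ∃ j, 0 < j ∧ j ≤ N ∧ D j = true
    · let S := (range (N + 1)).filter fun j => 0 < j ∧ D j = true
      have hS : S.Nonempty := by
        obtain ⟨j, h1, h2, h3⟩ := h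
        exact ⟨j, by simp only [S, mem_filter, mem_range]; exact ⟨by omega, h1, h3⟩⟩
      obtain ⟨M, hM, hmax⟩ := S.exists_max_image id hS
      simp only [S, mem_filter, mem_range] at hM
      refine ⟨M, by omega, ?_, fun _ => hM.2.2⟩
      intro j h1 h2
      by_contra h3
      rcases eq_or_lt_of_le h2 with h4 | h4
      · rw [h4] at h3; exact h3 hD
      · have h5 := hmax j (by
          simp only [S, mem_filter, mem_range]
          exact ⟨by omega, by omega, by simpa using h3⟩)
        simp only [id] at h5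
        omega
    · push Not at h
      refine ⟨0, by omega, ?_, fun h => by omega⟩
      intro j h1 h2
      rcases eq_or_lt_of_le h2 with h4 | h4
      · rw [h4]; exact hD
      · have := h j h1 (by omega)
        simpa using this
  let f : V → G.ConnectedComponent := G.connectedComponentMk
  have hsum : Fintype.card V = ∑ c : G.ConnectedComponent, (univ.filter fun u => f u = c).card := by
    rw [← card_univ]
    exact card_eq_sum_card_fiberwise fun _ _ => mem_coe.mpr (mem_univ _)
  have htwo : ∀ c : G.ConnectedComponent, 2 ≤ (univ.filter fun u => f u = c).card := by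
    intro c
    obtain ⟨v, rfl⟩ : ∃ v, f v = c := by
      induction c using SimpleGraph.ConnectedComponent.ind with
      | h v => exact ⟨v, rfl⟩
    obtain ⟨u, hu⟩ := hcon v
    have h1 : ({v, u} : Finset V) ⊆ univ.filter fun w => f w = f v := by
      intro w hw
      rw [mem_insert, mem_singleton] at hw
      rw [mem_filter]
      refine ⟨mem_univ _, ?_⟩
      rcases hw with rfl | rfl
      · rfl
      · exact (SimpleGraph.ConnectedComponent.eq.mpr hu.reachable).symm
    have h2 := card_le_card h1
    rw [card_pair hu.ne] at h2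
    exact h2
  have hnz : (univ.filter fun j : Fin (N + 2) => nu D (N + 1) j ≠ 0).card ≤ M := by
    have h1 : (univ.filter fun j : Fin (N + 2) => nu D (N + 1) j ≠ 0).card ≤ (Icc 1 M).card := by
      refine card_le_card_of_injOn (fun j => (j : ℕ)) ?_ (fun a _ b _ h => Fin.ext h)
      intro j hj
      rw [mem_coe, mem_filter] at hj
      rw [mem_coe, mem_Icc]
      have h2 := hj.2
      unfold nu at h2
      split_ifs at h2 with h3
      · exact absurd rfl h2
      · refine ⟨Nat.one_le_iff_ne_zero.mpr h3, ?_⟩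
        by_contra h4
        push Not at h4
        apply h2
        unfold mu
        have hjlt := j.isLt
        rw [if_neg (by rw [hM2 j h4 (by omega)]; simp), filter_false_of_mem]
        · simp
        · intro u hu
          rw [mem_Ico] at hu
          rw [hM2 u (by omega) (by omega)]; simp
    rwa [Nat.card_Icc, Nat.add_sub_cancel] at h1
  have hcomp := components_ge G (fun j : Fin (N + 2) => nu D (N + 1) j) hc
  have hM0 : 0 < M := by
    by_contra h0
    have h1 : 2 * Fintype.card G.ConnectedComponent ≤ Fintype.card V := by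
      rw [hsum]
      calc 2 * Fintype.card G.ConnectedComponent = ∑ _c : G.ConnectedComponent, 2 := by
            simp [mul_comm]
        _ ≤ _ := sum_le_sum fun c _ => htwo c
    omega
  have hroot : (G.lapMatrix ℝ).charpoly.eval ((M : ℝ) + 1) = 0 := by
    rw [hc, eval_prod]
    refine prod_eq_zero (i := (⟨M, by omega⟩ : Fin (N + 2))) (mem_univ _) ?_
    simp only [eval_sub, eval_X, eval_C]
    have : nu D (N + 1) M = (M : ℝ) + 1 := by
      unfold nu mu
      rw [if_neg (by omega), if_pos (hM3 hM0), filter_false_of_mem]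
      · simp
      · intro u hu
        rw [mem_Ico] at hu
        rw [hM2 u (by omega) (by omega)]; simp
    rw [this, sub_self]
  obtain ⟨x, hx0, hx⟩ := exists_eigvec G _ hroot
  obtain ⟨v0, hv0⟩ := Function.ne_iff.mp hx0
  have hbig : (M : ℝ) + 1 ≤ ((univ.filter fun u => f u = f v0).card : ℝ) := by
    refine comp_size G x _ (by positivity) hx v0 hv0 _ fun u => ?_
    rw [mem_filter]
    constructor
    · rintro ⟨_, h⟩
      exact (SimpleGraph.ConnectedComponent.eq.mp h).symm
    · intro h
      exact ⟨mem_univ _, SimpleGraph.ConnectedComponent.eq.mpr h.symm⟩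
  have hbig' : M + 1 ≤ (univ.filter fun u => f u = f v0).card := by exact_mod_cast hbig
  rw [← add_sum_erase univ _ (mem_univ (f v0))] at hsum
  have h1 : 2 * (Fintype.card G.ConnectedComponent - 1) ≤
      ∑ c ∈ univ.erase (f v0), (univ.filter fun u => f u = c).card := by
    calc 2 * (Fintype.card G.ConnectedComponent - 1) = ∑ _c ∈ univ.erase (f v0), 2 := by
          rw [sum_const, card_erase_of_mem (mem_univ _), card_univ, smul_eq_mul, mul_comm]
      _ ≤ _ := sum_le_sum fun c _ => htwo c
  omega

/-- complementation: `(x - n)^n χ(Gᶜ)(x)` depends only on `χ(G)` -/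
theorem compl_eval {V : Type*} [Fintype V] [DecidableEq V] (G : SimpleGraph V)
    [DecidableRel G.Adj] (x : ℝ) :
    (x - Fintype.card V) ^ Fintype.card V * (Gᶜ.lapMatrix ℝ).charpoly.eval x =
      ((-1) ^ Fintype.card V * (G.lapMatrix ℝ).charpoly.eval (Fintype.card V - x)) *
        ((x - Fintype.card V) • (1 : Matrix V V ℝ) + Matrix.of fun _ _ => (1 : ℝ)).det := by
  set n : ℝ := ((Fintype.card V : ℕ) : ℝ) with hn
  set L := G.lapMatrix ℝ with hL
  let J : Matrix V V ℝ := Matrix.of fun _ _ => (1 : ℝ)
  have hLJ : L * J = 0 := by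
    ext i j
    have h1 := congrFun (SimpleGraph.lapMatrix_mulVec_const_eq_zero (R := ℝ) G) i
    rw [Matrix.mul_apply]
    simp only [Matrix.mulVec, dotProduct, Pi.zero_apply] at h1
    simpa [J] using h1
  have hLc : Gᶜ.lapMatrix ℝ = n • (1 : Matrix V V ℝ) - J - L := by
    ext i j
    simp only [hL, SimpleGraph.lapMatrix, SimpleGraph.degMatrix, Matrix.sub_apply,
      Matrix.smul_apply, Matrix.diagonal_apply, Matrix.one_apply, SimpleGraph.adjMatrix_apply,
      SimpleGraph.compl_adj, J, Matrix.of_apply, smul_eq_mul]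
    by_cases hij : i = j
    · subst hij
      have h1 : (Gᶜ.degree i : ℝ) = n - 1 - G.degree i := by
        rw [SimpleGraph.degree_compl, hn]
        have h2 := G.degree_lt_card_verts i
        rw [Nat.cast_sub (by omega), Nat.cast_sub (by omega)]
        simp
      simp [h1]
    · simp only [hij, if_false, ne_eq, not_false_eq_true, true_and]
      by_cases h : G.Adj i j
      · simp [h]
      · simp [h]
  have h1 : ((x - n) • (1 : Matrix V V ℝ) + L) * ((x - n) • (1 : Matrix V V ℝ) + J) =
      (x - n) • (Matrix.scalar V x - Gᶜ.lapMatrix ℝ) := by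
    rw [add_mul, mul_add, mul_add, hLJ, hLc, Matrix.scalar_apply, ← Matrix.smul_one_eq_diagonal]
    simp only [smul_mul_assoc, one_mul, mul_smul_comm, mul_one, add_zero]
    ext i j
    simp only [Matrix.add_apply, Matrix.sub_apply, Matrix.smul_apply, smul_eq_mul]
    ring
  have h2 := congrArg Matrix.det h1
  rw [Matrix.det_mul, Matrix.det_smul, ← Matrix.eval_charpoly] at h2
  rw [← h2]
  congr 1
  rw [Matrix.eval_charpoly, ← Matrix.det_neg]
  congr 1
  rw [Matrix.scalar_apply, ← Matrix.smul_one_eq_diagonal]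
  ext i j
  simp only [Matrix.add_apply, Matrix.sub_apply, Matrix.neg_apply, Matrix.smul_apply, smul_eq_mul]
  ring

theorem compl_charpoly {V W : Type*} [Fintype V] [DecidableEq V] [Fintype W] [DecidableEq W]
    (G : SimpleGraph V) [DecidableRel G.Adj] (H : SimpleGraph W) [DecidableRel H.Adj]
    (e : V ≃ W) (h : (G.lapMatrix ℝ).charpoly = (H.lapMatrix ℝ).charpoly) :
    (Gᶜ.lapMatrix ℝ).charpoly = (Hᶜ.lapMatrix ℝ).charpoly := by
  have hcard : Fintype.card V = Fintype.card W := Fintype.card_congr e
  have hdet : ∀ x : ℝ,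
      ((x - Fintype.card V) • (1 : Matrix V V ℝ) + Matrix.of fun _ _ => (1 : ℝ)).det =
        ((x - Fintype.card W) • (1 : Matrix W W ℝ) + Matrix.of fun _ _ => (1 : ℝ)).det := by
    intro x
    rw [← hcard, ← Matrix.det_submatrix_equiv_self e]
    congr 1
    ext i j
    simp [Matrix.one_apply]
  apply Polynomial.eq_of_infinite_eval_eq
  refine Set.Infinite.mono (s := {x : ℝ | x ≠ (Fintype.card V : ℝ)}) ?_ ?_
  · intro x hx
    have h1 := compl_eval G x
    have h2 := compl_eval H x
    rw [← hdet, ← hcard, ← h, ← h1] at h2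
    have h3 : (x - Fintype.card V) ^ Fintype.card V ≠ 0 := pow_ne_zero _ (sub_ne_zero.mpr hx)
    exact (mul_left_cancel₀ h3 h2).symm
  · exact Set.Finite.infinite_compl (Set.finite_singleton _)

/-- removing an isolated vertex -/
theorem charpoly_isolated {V : Type*} [Fintype V] [DecidableEq V] (G : SimpleGraph V)
    [DecidableRel G.Adj] (v : V) (hv : ∀ u, ¬ G.Adj v u)
    (H : SimpleGraph {u : V // u ≠ v}) [DecidableRel H.Adj]
    (hH : ∀ a b, H.Adj a b ↔ G.Adj a b) :
    (G.lapMatrix ℝ).charpoly = (H.lapMatrix ℝ).charpoly * X := by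
  let τ := Equiv.sumCompl fun u : V => u ≠ v
  have h1 := Matrix.charpoly_reindex τ.symm (G.lapMatrix ℝ)
  have h2 : Matrix.reindex τ.symm τ.symm (G.lapMatrix ℝ) =
      Matrix.fromBlocks (H.lapMatrix ℝ) 0 0 0 := by
    have hdeg : ∀ a : {u : V // u ≠ v}, (G.degree a : ℝ) = H.degree a := by
      intro a
      rw [SimpleGraph.degree_eq_sum_if_adj, SimpleGraph.degree_eq_sum_if_adj,
        ← Equiv.sum_comp τ, Fintype.sum_sum_type]
      have h3 : ∑ b : {u : V // ¬ u ≠ v}, (if G.Adj a (τ (Sum.inr b)) then (1 : ℝ) else 0) = 0 := by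
        refine sum_eq_zero fun b _ => ?_
        have h4 : τ (Sum.inr b) = v := by
          have := b.2
          push Not at this
          simpa [τ] using this
        rw [h4, if_neg]
        intro h5
        exact hv _ h5.symm
      rw [h3, add_zero]
      refine sum_congr rfl fun b _ => ?_
      simp only [hH]
      rfl
    have hinr : ∀ b : {u : V // ¬ u ≠ v}, (b : V) = v := fun b => by
      have := b.2
      push Not at this
      exact this
    have hdv : (G.degree v : ℝ) = 0 := by
      rw [SimpleGraph.degree_eq_sum_if_adj]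
      exact sum_eq_zero fun u _ => by rw [if_neg (hv u)]
    ext a b
    rcases a with a | a <;> rcases b with b | b
    · simp only [Matrix.reindex_apply, Matrix.submatrix_apply, Equiv.symm_symm, τ,
        Equiv.sumCompl_apply_inl, Matrix.fromBlocks_apply₁₁, SimpleGraph.lapMatrix,
        SimpleGraph.degMatrix, Matrix.sub_apply, Matrix.diagonal_apply,
        SimpleGraph.adjMatrix_apply, hH, hdeg]
      simp only [Subtype.ext_iff]
    · simp only [Matrix.reindex_apply, Matrix.submatrix_apply, Equiv.symm_symm, τ,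
        Equiv.sumCompl_apply_inl, Equiv.sumCompl_apply_inr, Matrix.fromBlocks_apply₁₂,
        SimpleGraph.lapMatrix, hinr, Matrix.zero_apply,
        SimpleGraph.degMatrix, Matrix.sub_apply, Matrix.diagonal_apply,
        SimpleGraph.adjMatrix_apply]
      rw [if_neg a.2, if_neg (fun h => hv _ h.symm), sub_zero]
    · simp only [Matrix.reindex_apply, Matrix.submatrix_apply, Equiv.symm_symm, τ,
        Equiv.sumCompl_apply_inl, Equiv.sumCompl_apply_inr, Matrix.fromBlocks_apply₂₁,
        SimpleGraph.lapMatrix, hinr, Matrix.zero_apply,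
        SimpleGraph.degMatrix, Matrix.sub_apply, Matrix.diagonal_apply,
        SimpleGraph.adjMatrix_apply]
      rw [if_neg b.2.symm, if_neg (hv _), sub_zero]
    · simp only [Matrix.reindex_apply, Matrix.submatrix_apply, Equiv.symm_symm, τ,
        Equiv.sumCompl_apply_inr, Matrix.fromBlocks_apply₂₂,
        SimpleGraph.lapMatrix, hinr, Matrix.zero_apply,
        SimpleGraph.degMatrix, Matrix.sub_apply, Matrix.diagonal_apply,
        SimpleGraph.adjMatrix_apply]
      rw [if_pos trivial, if_neg (hv _), hdv, sub_zero]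
  rw [← h1, h2, Matrix.charpoly_fromBlocks_zero₁₂]
  congr 1
  have h5 : Fintype.card {u : V // ¬ u ≠ v} = 1 := by
    rw [Fintype.card_eq_one_iff]
    refine ⟨⟨v, by simp⟩, fun b => Subtype.ext ?_⟩
    have := b.2
    push Not at this
    exact this
  rw [Matrix.charpoly_zero, h5, pow_one]

end Pool.Agent.Helper98x.LapExt
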