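import Pool.Agent.Helper98x.LapExt.Layer
import Pool.Agent.Helper827.Brou.Spec

/-!
# Laplacian spectra of graphs built by adding isolated or dominating vertices
-/

set_option autoImplicit false

open Finset Polynomial

namespace Pool.Agent.Helper98x.LapExt

/-- eigenvalue attached to the `j`-th added vertex of a creation sequence with `N + 1` vertices -/
noncomputable def mu (D : ℕ → Bool) (N j : ℕ) : ℝ :=
  (if D j = true then (j : ℝ) + 1 else 0) +
    (((Ico (j + 1) (N + 1)).filter fun u => D u = true).card : ℝ)

theorem mu_update_top (D : ℕ → Bool) (N : ℕ) (b : Bool) :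
    mu (Function.update D (N + 1) b) (N + 1) (N + 1) = if b = true then (N : ℝ) + 2 else 0 := by
  unfold mu
  simp only [Function.update_self, Ico_self, filter_empty, card_empty, Nat.cast_zero, add_zero]
  split_ifs
  · push_cast; ring
  · rfl

theorem mu_update_le (D : ℕ → Bool) (N : ℕ) (b : Bool) (j : ℕ) (hj : j ≤ N) :
    mu (Function.update D (N + 1) b) (N + 1) j = mu D N j + if b = true then 1 else 0 := by
  unfold mu
  rw [Function.update_of_ne (show j ≠ N + 1 by omega)]
  have h1 : Ico (j + 1) (N + 1 + 1) = insert (N + 1) (Ico (j + 1) (N + 1)) := by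
    ext u; simp only [mem_Ico, mem_insert]; omega
  have h2 : ((Ico (j + 1) (N + 1)).filter fun u => Function.update D (N + 1) b u = true) =
      (Ico (j + 1) (N + 1)).filter fun u => D u = true := by
    apply filter_congr
    intro u hu
    rw [mem_Ico] at hu
    rw [Function.update_of_ne (show u ≠ N + 1 by omega)]
  have h3 : N + 1 ∉ (Ico (j + 1) (N + 1)).filter fun u => D u = true := by
    simp
  rw [h1, filter_insert, h2, Function.update_self]
  cases b with
  | true =>
    simp only [if_true]
    rw [card_insert_of_notMem h3]; push_cast; ring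
  | false =>
    simp only [Bool.false_eq_true, if_false, add_zero]

theorem prod_mu_update (D : ℕ → Bool) (N : ℕ) (b : Bool) (f : ℝ → ℝ[X]) :
    ∏ j ∈ Icc 1 (N + 1), f (mu (Function.update D (N + 1) b) (N + 1) j) =
      f (if b = true then (N : ℝ) + 2 else 0) *
        ∏ j ∈ Icc 1 N, f (mu D N j + if b = true then 1 else 0) := by
  have h1 : Icc 1 (N + 1) = insert (N + 1) (Icc 1 N) := by
    ext u; simp only [mem_Icc, mem_insert]; omega
  rw [h1, prod_insert (by simp), mu_update_top]
  congr 1
  refine prod_congr rfl fun j hj => ?_
  rw [mem_Icc] at hj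
  rw [mu_update_le D N b j hj.2]

/-- recursion of the maximiser, dominating step -/
theorem yv_dom (N : ℕ) (c : ℕ → ℝ) (hc : Anti (N + 1) c) (h : 0 < c 0 + c N) :
    yv (N + 1) c 0 = (N : ℝ) + 2 ∧
      ∀ i, i < N → yv (N + 1) c (i + 1) = yv N (fun j => c (j + 1)) i + 1 := by
  have h0 : 0 < c 0 := by
    have := hc 0 N (Nat.zero_le _) (Nat.lt_succ_self _)
    linarith
  have hall : ∀ j, j < N + 1 → 0 < c 0 + c j := by
    intro j hj
    have := hc j N (by omega) (Nat.lt_succ_self _)
    linarith
  constructor
  · unfold yv
    rw [if_pos h0, filter_true_of_mem (fun j hj => hall j (mem_range.mp hj)), card_range]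
    push_cast; ring
  · intro i hi
    unfold yv
    have h1 : ((range (N + 1)).filter fun j => 0 < c (i + 1) + c j) =
        insert 0 ((((range N).filter fun j => 0 < c (i + 1) + c (j + 1))).map
          (addRightEmbedding 1)) := by
      ext j
      simp only [mem_filter, mem_range, mem_insert, mem_map, addRightEmbedding_apply]
      constructor
      · rintro ⟨h1, h2⟩
        rcases Nat.eq_zero_or_pos j with h3 | h3
        · exact Or.inl h3
        · right
          refine ⟨j - 1, ⟨by omega, ?_⟩, by omega⟩
          rwa [Nat.sub_add_cancel h3]
      · rintro (rfl | ⟨k, ⟨h1, h2⟩, rfl⟩)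
        · refine ⟨by omega, ?_⟩
          rw [add_comm]
          exact hall (i + 1) (by omega)
        · exact ⟨by omega, h2⟩
    rw [h1, card_insert_of_notMem (by simp), card_map]
    push_cast
    ring

theorem yv_iso (N : ℕ) (c : ℕ → ℝ) (hc : Anti (N + 1) c) (h : ¬ 0 < c 0 + c N) :
    yv (N + 1) c N = 0 ∧ ∀ i, i < N → yv (N + 1) c i = yv N c i := by
  push Not at h
  have hall : ∀ j, j < N + 1 → c N + c j ≤ 0 := by
    intro j hj
    have := hc 0 j (Nat.zero_le _) hj
    linarith
  have hN : ¬ 0 < c N := by
    have := hall N (Nat.lt_succ_self _)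
    intro h1; linarith
  constructor
  · unfold yv
    rw [if_neg hN, filter_false_of_mem (fun j hj => not_lt.mpr (hall j (mem_range.mp hj)))]
    simp
  · intro i hi
    unfold yv
    congr 3
    ext j
    simp only [mem_filter, mem_range]
    constructor
    · rintro ⟨h1, h2⟩
      refine ⟨?_, h2⟩
      rcases Nat.lt_succ_iff_lt_or_eq.mp h1 with h3 | h3
      · exact h3
      · subst h3
        have := hall i (by omega)
        linarith
    · rintro ⟨h1, h2⟩
      exact ⟨by omega, h2⟩

theorem prod_range_shift (N : ℕ) (g : ℕ → ℝ[X]) :
    ∏ i ∈ range (N + 1), g i = g 0 * ∏ i ∈ range N, g (i + 1) := by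
  rw [prod_range_succ', mul_comm]

/-- every nonincreasing direction is maximised at the spectrum of a creation sequence -/
theorem real_of_anti (N : ℕ) : ∀ c : ℕ → ℝ, Anti N c →
    ∃ D : ℕ → Bool, ∀ f : ℝ → ℝ[X],
      ∏ i ∈ range N, f (yv N c i) = ∏ j ∈ Icc 1 N, f (mu D N j) := by
  induction N with
  | zero => intro c _; exact ⟨fun _ => false, fun f => by simp⟩
  | succ N ih =>
    intro c hc
    by_cases h : 0 < c 0 + c N
    · have hc' : Anti N (fun j => c (j + 1)) := fun i j hij hj => hc (i + 1) (j + 1) (by omega) (by omega)
      obtain ⟨D, hD⟩ := ih _ hc'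
      obtain ⟨h1, h2⟩ := yv_dom N c hc h
      refine ⟨Function.update D (N + 1) true, fun f => ?_⟩
      rw [prod_mu_update, prod_range_shift, h1]
      simp only [if_true]
      congr 1
      rw [← hD fun r => f (r + 1)]
      exact prod_congr rfl fun i hi => by rw [h2 i (mem_range.mp hi)]
    · have hc' : Anti N c := fun i j hij hj => hc i j hij (by omega)
      obtain ⟨D, hD⟩ := ih _ hc'
      obtain ⟨h1, h2⟩ := yv_iso N c hc h
      refine ⟨Function.update D (N + 1) false, fun f => ?_⟩
      rw [prod_mu_update, prod_range_succ, h1, mul_comm]
      simp only [Bool.false_eq_true, if_false, add_zero]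
      congr 1
      rw [← hD f]
      exact prod_congr rfl fun i hi => by rw [h2 i (mem_range.mp hi)]

/-- every creation sequence is exposed by a strictly decreasing direction -/
theorem dir_of_creation (N : ℕ) (D : ℕ → Bool) :
    ∃ c : ℕ → ℝ, (∀ i j : ℕ, i < j → j < N → c j < c i) ∧
      (∀ i j : ℕ, i < N → j < N → c i + c j ≠ 0) ∧ (∀ i, i < N → |c i| < N + 1) ∧
      ∀ f : ℝ → ℝ[X], ∏ i ∈ range N, f (yv N c i) = ∏ j ∈ Icc 1 N, f (mu D N j) := by
  induction N with
  | zero => exact ⟨fun _ => 0, by intro i j _ h; omega, by intro i j h; omega, by intro i h; omega,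
      fun f => by simp⟩
  | succ N ih =>
    obtain ⟨c, h1, h2, h3, h4⟩ := ih
    have hupd : Function.update D (N + 1) (D (N + 1)) = D := Function.update_eq_self _ _
    cases hb : D (N + 1) with
    | true =>
      let d : ℕ → ℝ := fun i => if i = 0 then (N : ℝ) + 1 else c (i - 1)
      have d0 : d 0 = (N : ℝ) + 1 := by simp [d]
      have d1 : ∀ i, d (i + 1) = c i := fun i => by simp [d]
      have hd : ∀ i j : ℕ, i < j → j < N + 1 → d j < d i := by
        intro i j hij hj
        obtain ⟨j', rfl⟩ : ∃ j', j = j' + 1 := ⟨j - 1, by omega⟩
        rw [d1]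
        rcases Nat.eq_zero_or_pos i with h | h
        · subst h
          rw [d0]
          exact (abs_lt.mp (h3 j' (by omega))).2
        · obtain ⟨i', rfl⟩ : ∃ i', i = i' + 1 := ⟨i - 1, by omega⟩
          rw [d1]
          exact h1 i' j' (by omega) (by omega)
      have hanti : Anti (N + 1) d := by
        intro i j hij hj
        rcases eq_or_lt_of_le hij with h | h
        · rw [h]
        · exact (hd i j h hj).le
      have hpos : 0 < d 0 + d N := by
        rcases Nat.eq_zero_or_pos N with h | h
        · subst h; rw [d0]; push_cast; norm_num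
        · obtain ⟨N', rfl⟩ : ∃ N', N = N' + 1 := ⟨N - 1, by omega⟩
          rw [d0, d1]
          have := (abs_lt.mp (h3 N' (by omega))).1
          linarith
      refine ⟨d, hd, ?_, ?_, ?_⟩
      · intro i j hi hj
        have key : ∀ k, k < N + 1 → d 0 + d k ≠ 0 := by
          intro k hk
          have := hanti k N (by omega) (by omega)
          linarith
        rcases Nat.eq_zero_or_pos i with h | h
        · subst h; exact key j hj
        · rcases Nat.eq_zero_or_pos j with h' | h'
          · subst h'; rw [add_comm]; exact key i hi
          · obtain ⟨i', rfl⟩ : ∃ i', i = i' + 1 := ⟨i - 1, by omega⟩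
            obtain ⟨j', rfl⟩ : ∃ j', j = j' + 1 := ⟨j - 1, by omega⟩
            rw [d1, d1]
            exact h2 i' j' (by omega) (by omega)
      · intro i hi
        push_cast
        rcases Nat.eq_zero_or_pos i with h | h
        · subst h
          rw [d0, abs_of_nonneg (by positivity)]; linarith
        · obtain ⟨i', rfl⟩ : ∃ i', i = i' + 1 := ⟨i - 1, by omega⟩
          rw [d1]
          have := h3 i' (by omega)
          linarith
      · intro f
        obtain ⟨y1, y2⟩ := yv_dom N d hanti hpos
        rw [← hupd, hb, prod_mu_update, prod_range_shift, y1]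
        simp only [if_true]
        congr 1
        rw [← h4 fun r => f (r + 1)]
        refine prod_congr rfl fun i hi => ?_
        rw [y2 i (mem_range.mp hi)]
        have : (fun j => d (j + 1)) = c := funext d1
        rw [this]
    | false =>
      let d : ℕ → ℝ := fun i => if i = N then -((N : ℝ) + 1) else c i
      have d0 : d N = -((N : ℝ) + 1) := by simp [d]
      have d1 : ∀ i, i < N → d i = c i := fun i hi => by simp [d, show i ≠ N by omega]
      have hd : ∀ i j : ℕ, i < j → j < N + 1 → d j < d i := by
        intro i j hij hj
        rw [d1 i (by omega)]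
        rcases Nat.lt_succ_iff_lt_or_eq.mp hj with h | h
        · rw [d1 j h]; exact h1 i j hij h
        · subst h
          rw [d0]
          exact (abs_lt.mp (h3 i hij)).1
      have hanti : Anti (N + 1) d := by
        intro i j hij hj
        rcases eq_or_lt_of_le hij with h | h
        · rw [h]
        · exact (hd i j h hj).le
      have hneg : d 0 + d N < 0 := by
        rw [d0]
        rcases Nat.eq_zero_or_pos N with h | h
        · subst h; rw [d0]; push_cast; norm_num
        · rw [d1 0 h]
          have := (abs_lt.mp (h3 0 h)).2
          linarith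
      refine ⟨d, hd, ?_, ?_, ?_⟩
      · intro i j hi hj
        have key : ∀ k, k < N + 1 → d N + d k ≠ 0 := by
          intro k hk
          have := hanti 0 k (by omega) (by omega)
          intro h; linarith
        rcases Nat.lt_succ_iff_lt_or_eq.mp hi with h | h
        · rcases Nat.lt_succ_iff_lt_or_eq.mp hj with h' | h'
          · rw [d1 i h, d1 j h']; exact h2 i j h h'
          · subst h'; rw [add_comm]; exact key i hi
        · subst h; exact key j hj
      · intro i hi
        push_cast
        rcases Nat.lt_succ_iff_lt_or_eq.mp hi with h | h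
        · rw [d1 i h]
          have := h3 i h
          linarith
        · subst h
          rw [d0, abs_neg, abs_of_nonneg (by positivity)]; linarith
      · intro f
        obtain ⟨y1, y2⟩ := yv_iso N d hanti (by linarith)
        rw [← hupd, hb, prod_mu_update, prod_range_succ, y1, mul_comm]
        simp only [Bool.false_eq_true, if_false, add_zero]
        congr 1
        rw [← h4 f]
        refine prod_congr rfl fun i hi => ?_
        rw [y2 i (mem_range.mp hi)]
        unfold yv
        have hi' := mem_range.mp hi
        rw [d1 i hi']
        have e : ((range N).filter fun j => 0 < c i + d j) =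
            (range N).filter fun j => 0 < c i + c j := by
          apply filter_congr
          intro j hj
          rw [d1 j (mem_range.mp hj)]
        rw [e]

/-! ### Degrees and the conjugate sequence -/

/-- degree of the `j`-th vertex -/
def dg (D : ℕ → Bool) (N j : ℕ) : ℕ :=
  (if D j = true then j else 0) + ((Ico (j + 1) (N + 1)).filter fun u => D u = true).card

/-- number of vertices of degree at least `k` -/
def dst (D : ℕ → Bool) (N k : ℕ) : ℕ := ((range (N + 1)).filter fun j => k ≤ dg D N j).card

theorem dg_update_top (D : ℕ → Bool) (N : ℕ) (b : Bool) :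
    dg (Function.update D (N + 1) b) (N + 1) (N + 1) = if b = true then N + 1 else 0 := by
  unfold dg
  simp

theorem dg_update_le (D : ℕ → Bool) (N : ℕ) (b : Bool) (j : ℕ) (hj : j ≤ N) :
    dg (Function.update D (N + 1) b) (N + 1) j = dg D N j + if b = true then 1 else 0 := by
  unfold dg
  rw [Function.update_of_ne (show j ≠ N + 1 by omega)]
  have h1 : Ico (j + 1) (N + 1 + 1) = insert (N + 1) (Ico (j + 1) (N + 1)) := by
    ext u; simp only [mem_Ico, mem_insert]; omega
  have h2 : ((Ico (j + 1) (N + 1)).filter fun u => Function.update D (N + 1) b u = true) =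
      (Ico (j + 1) (N + 1)).filter fun u => D u = true := by
    apply filter_congr
    intro u hu
    rw [mem_Ico] at hu
    rw [Function.update_of_ne (show u ≠ N + 1 by omega)]
  have h3 : N + 1 ∉ (Ico (j + 1) (N + 1)).filter fun u => D u = true := by
    simp
  rw [h1, filter_insert, h2, Function.update_self]
  cases b with
  | true =>
    simp only [if_true]
    rw [card_insert_of_notMem h3]; ring
  | false =>
    simp only [Bool.false_eq_true, if_false, add_zero]

theorem dg_le (D : ℕ → Bool) (N j : ℕ) (hj : j ≤ N) : dg D N j ≤ N := by
  unfold dg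
  have h1 : ((Ico (j + 1) (N + 1)).filter fun u => D u = true).card ≤ N - j := by
    refine (card_filter_le _ _).trans ?_
    rw [Nat.card_Ico]; omega
  have h2 : (if D j = true then j else 0) ≤ j := by split_ifs <;> omega
  omega

theorem prod_dst (D : ℕ → Bool) (N : ℕ) : ∀ f : ℝ → ℝ[X],
    ∏ k ∈ Icc 1 N, f (dst D N k) = ∏ j ∈ Icc 1 N, f (mu D N j) := by
  induction N with
  | zero => intro f; simp
  | succ N ih =>
    intro f
    have hupd : Function.update D (N + 1) (D (N + 1)) = D := Function.update_eq_self _ _
    have hr : range (N + 1 + 1) = insert (N + 1) (range (N + 1)) := by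
      ext u; simp only [mem_range, mem_insert]; omega
    cases hb : D (N + 1) with
    | true =>
      have hd1 : ∀ j, j ≤ N → dg D (N + 1) j = dg D N j + 1 := by
        intro j hj
        have := dg_update_le D N (D (N + 1)) j hj
        rw [hupd, hb] at this
        simpa using this
      have hd2 : dg D (N + 1) (N + 1) = N + 1 := by
        have := dg_update_top D N (D (N + 1))
        rw [hupd, hb] at this
        simpa using this
      have e1 : dst D (N + 1) 1 = N + 2 := by
        unfold dst
        rw [filter_true_of_mem, card_range]
        intro j hj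
        rw [mem_range] at hj
        rcases Nat.lt_succ_iff_lt_or_eq.mp hj with h | h
        · rw [hd1 j (by omega)]; omega
        · rw [h, hd2]; omega
      have e2 : ∀ k, 1 ≤ k → k ≤ N → dst D (N + 1) (k + 1) = dst D N k + 1 := by
        intro k h1 h2
        unfold dst
        rw [hr, filter_insert, if_pos (by rw [hd2]; omega), card_insert_of_notMem (by simp)]
        congr 2
        apply filter_congr
        intro j hj
        rw [mem_range] at hj
        rw [hd1 j (by omega)]
        omega
      rw [← hupd, hb, prod_mu_update]
      rw [show Function.update D (N + 1) true = D by rw [← hb, hupd]]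
      have h5 : Icc 1 (N + 1) = insert 1 ((Icc 1 N).map (addRightEmbedding 1)) := by
        ext u
        simp only [mem_Icc, mem_insert, mem_map, addRightEmbedding_apply]
        constructor
        · intro h
          rcases eq_or_lt_of_le h.1 with h1 | h1
          · exact Or.inl h1.symm
          · exact Or.inr ⟨u - 1, by omega, by omega⟩
        · rintro (rfl | ⟨a, h1, rfl⟩) <;> omega
      rw [h5, prod_insert (by simp), prod_map, e1]
      simp only [if_true, addRightEmbedding_apply]
      congr 1
      · push_cast; ring_nf
      · rw [← ih fun r => f (r + 1)]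
        refine prod_congr rfl fun k hk => ?_
        rw [mem_Icc] at hk
        rw [e2 k hk.1 hk.2]
        push_cast
        rfl
    | false =>
      have hd1 : ∀ j, j ≤ N → dg D (N + 1) j = dg D N j := by
        intro j hj
        have := dg_update_le D N (D (N + 1)) j hj
        rw [hupd, hb] at this
        simpa using this
      have hd2 : dg D (N + 1) (N + 1) = 0 := by
        have := dg_update_top D N (D (N + 1))
        rw [hupd, hb] at this
        simpa using this
      have e2 : ∀ k, 1 ≤ k → dst D (N + 1) k = dst D N k := by
        intro k h1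
        unfold dst
        rw [hr, filter_insert, if_neg (by rw [hd2]; omega)]
        congr 1
        apply filter_congr
        intro j hj
        rw [mem_range] at hj
        rw [hd1 j (by omega)]
      have e3 : dst D N (N + 1) = 0 := by
        unfold dst
        rw [filter_false_of_mem, card_empty]
        intro j hj
        rw [mem_range] at hj
        have := dg_le D N j (by omega)
        omega
      rw [← hupd, hb, prod_mu_update]
      rw [show Function.update D (N + 1) false = D by rw [← hb, hupd]]
      have h5 : Icc 1 (N + 1) = insert (N + 1) (Icc 1 N) := by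
        ext u; simp only [mem_Icc, mem_insert]; omega
      rw [h5, prod_insert (by simp), e2 (N + 1) (by omega), e3]
      simp only [Bool.false_eq_true, if_false, add_zero, Nat.cast_zero]
      congr 1
      rw [← ih f]
      refine prod_congr rfl fun k hk => ?_
      rw [mem_Icc] at hk
      rw [e2 k hk.1]

theorem dst_top (D : ℕ → Bool) (N : ℕ) : dst D N (N + 1) = 0 := by
  unfold dst
  rw [filter_false_of_mem, card_empty]
  intro j hj
  rw [mem_range] at hj
  have := dg_le D N j (by omega)
  omega

end Pool.Agent.Helper98x.LapExt
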