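import Pool.Agent.Helper98x.LapExt.Cospec

/-!
# Threshold graphs are determined by their Laplacian spectra; degrees; counting
-/

set_option autoImplicit false

open Finset Polynomial

namespace Pool.Agent.Helper98x.LapExt

universe u

theorem creat_compl {V : Type*} {N : ℕ} {e : Fin (N + 1) ≃ V} {D : ℕ → Bool} {G : SimpleGraph V}
    (h : Creat N e D G) : Creat N e (fun i => !D i) Gᶜ := by
  intro i j hij
  rw [SimpleGraph.compl_adj, h i j hij]
  have : e i ≠ e j := fun h => hij.ne (e.injective h)
  simp [this]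

theorem nu_succ (D : ℕ → Bool) (N j : ℕ) (hj : j ≤ N) (hD : D (N + 1) = false) :
    nu D (N + 1) j = nu D N j := by
  unfold nu
  split_ifs with h
  · rfl
  · have h1 := mu_update_le D N (D (N + 1)) j hj
    rw [Function.update_eq_self, hD] at h1
    simpa using h1

theorem nu_top (D : ℕ → Bool) (N : ℕ) (hD : D (N + 1) = false) : nu D (N + 1) (N + 1) = 0 := by
  unfold nu
  rw [if_neg (by omega)]
  have h1 := mu_update_top D N (D (N + 1))
  rw [Function.update_eq_self, hD] at h1
  simpa using h1

theorem cospec (N : ℕ) : ∀ (D : ℕ → Bool) (V : Type u) [Fintype V] [DecidableEq V]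
    (G : SimpleGraph V) [DecidableRel G.Adj], Fintype.card V = N + 1 →
    (G.lapMatrix ℝ).charpoly = ∏ j : Fin (N + 1), (X - C (nu D N j)) →
    ∃ e : Fin (N + 1) ≃ V, Creat N e D G := by
  induction N with
  | zero =>
    intro D V _ _ G _ hV _
    refine ⟨(Fintype.equivFinOfCardEq hV).symm, fun i j hij => ?_⟩
    have h1 : (i : ℕ) < j := hij
    have := j.isLt
    omega
  | succ N ih =>
    have hfalse : ∀ (D : ℕ → Bool) (V : Type u) [Fintype V] [DecidableEq V]
        (G : SimpleGraph V) [DecidableRel G.Adj], D (N + 1) = false → Fintype.card V = N + 2 →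
        (G.lapMatrix ℝ).charpoly = ∏ j : Fin (N + 2), (X - C (nu D (N + 1) j)) →
        ∃ e : Fin (N + 2) ≃ V, Creat (N + 1) e D G := by
      intro D V _ _ G _ hD hV hc
      obtain ⟨v, hv⟩ := exists_isolated G N hV D hD hc
      let H : SimpleGraph {u : V // u ≠ v} := G.comap Subtype.val
      have : DecidableRel H.Adj := Classical.decRel _
      have h1 := charpoly_isolated G v hv H (fun a b => Iff.rfl)
      have hcard : Fintype.card {u : V // u ≠ v} = N + 1 := by
        rw [Fintype.card_subtype_compl, Fintype.card_subtype_eq, hV]; rfl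
      have h2 : (H.lapMatrix ℝ).charpoly = ∏ j : Fin (N + 1), (X - C (nu D N j)) := by
        rw [hc, Fin.prod_univ_castSucc] at h1
        simp only [Fin.val_castSucc, Fin.val_last] at h1
        rw [nu_top D N hD, map_zero, sub_zero] at h1
        rw [← mul_right_cancel₀ X_ne_zero h1]
        refine prod_congr rfl fun j _ => ?_
        rw [nu_succ D N j (by have := j.isLt; omega) hD]
      obtain ⟨e', he'⟩ := ih D _ H hcard h2
      let e : Fin (N + 2) ≃ V :=
        finSuccEquivLast.trans ((Equiv.optionCongr e').trans (Equiv.optionSubtypeNe v))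
      have e1 : ∀ i : Fin (N + 1), e i.castSucc = e' i := by
        intro i
        simp [e]
      have e2 : e (Fin.last (N + 1)) = v := by
        simp [e]
      refine ⟨e, fun i j hij => ?_⟩
      induction j using Fin.lastCases with
      | last =>
        rw [e2]
        constructor
        · intro h; exact absurd h.symm (hv _)
        · intro h; rw [Fin.val_last, hD] at h; exact absurd h (by simp)
      | cast j =>
        induction i using Fin.lastCases with
        | last =>
          have h3 : ((Fin.last (N + 1) : Fin (N + 2)) : ℕ) < (j.castSucc : ℕ) := hij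
          rw [Fin.val_last, Fin.val_castSucc] at h3
          have := j.isLt
          omega
        | cast i =>
          rw [e1, e1]
          exact he' i j (by simpa using hij)
    intro D V _ _ G _ hV hc
    cases hD : D (N + 1) with
    | false => exact hfalse D V G hD hV hc
    | true =>
      classical
      have e0 : V ≃ Fin (N + 2) := Fintype.equivFinOfCardEq hV
      have h1 : (G.lapMatrix ℝ).charpoly = ((GD (N + 1) D).lapMatrix ℝ).charpoly := by
        rw [hc, charpoly_creat (creat_GD (N + 1) D)]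
      have h2 := compl_charpoly G (GD (N + 1) D) e0 h1
      rw [charpoly_creat (creat_compl (creat_GD (N + 1) D))] at h2
      obtain ⟨e, he⟩ := hfalse (fun i => !D i) V Gᶜ (by simp [hD]) hV h2
      refine ⟨e, ?_⟩
      have := creat_compl he
      simpa using this

/-! ### Degrees -/

theorem degree_creat {V : Type*} [Fintype V] [DecidableEq V] {N : ℕ} {e : Fin (N + 1) ≃ V}
    {D : ℕ → Bool} {G : SimpleGraph V} [DecidableRel G.Adj] (h : Creat N e D G)
    (t : Fin (N + 1)) : G.degree (e t) = dg D N t := by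
  have h1 : (G.degree (e t) : ℝ) = dg D N t := by
    rw [SimpleGraph.degree_eq_sum_if_adj, ← Equiv.sum_comp e]
    have h2 := ad_split D N t (by have := t.isLt; omega) (fun _ => 1)
    simp only [mul_one, sum_const, card_range, nsmul_eq_mul] at h2
    rw [sum_congr rfl fun u _ => creat_ad h t u, Fin.sum_univ_eq_sum_range (fun u => ad D t u), h2]
    unfold dg
    push_cast
    rw [card_filter_real]
    congr 1
    split_ifs <;> simp
  exact_mod_cast h1

theorem dst_creat {V : Type*} [Fintype V] [DecidableEq V] {N : ℕ} {e : Fin (N + 1) ≃ V}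
    {D : ℕ → Bool} {G : SimpleGraph V} [DecidableRel G.Adj] (h : Creat N e D G) (k : ℕ) :
    (univ.filter fun v => k ≤ G.degree v).card = dst D N k := by
  unfold dst
  rw [card_filter, card_filter, ← Equiv.sum_comp e,
    ← Fin.sum_univ_eq_sum_range (fun j => if k ≤ dg D N j then 1 else 0)]
  exact sum_congr rfl fun t _ => by rw [degree_creat h]

theorem la_dst {N : ℕ} {e : Fin (N + 1) ≃ Fin (N + 1)} {D : ℕ → Bool}
    {G : SimpleGraph (Fin (N + 1))} [DecidableRel G.Adj] (h : Creat N e D G) (i : Fin (N + 1)) :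
    la G i = ((univ.filter fun v => (i : ℕ) + 1 ≤ G.degree v).card : ℝ) := by
  have h1 : la G = fun i : Fin (N + 1) => if (i : ℕ) < N then ((dst D N (i + 1) : ℕ) : ℝ) else 0 := by
    refine la_creat h (fun i => ((dst D N (i + 1) : ℕ) : ℝ)) ?_ (fun i _ => by positivity) ?_
    · intro i j hij _
      have : dst D N (j + 1) ≤ dst D N (i + 1) := by
        refine card_le_card fun t ht => ?_
        rw [mem_filter] at ht ⊢
        exact ⟨ht.1, by omega⟩
      simp only
      exact_mod_cast this
    · rw [← prod_dst D N fun r => X - C r, show Icc 1 N = Ico (0 + 1) (N + 1) by ext; simp,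
        ← Finset.prod_Ico_add' (fun j => (X - C ((dst D N j : ℕ) : ℝ))) 0 N 1,
        Nat.Ico_zero_eq_range]
  rw [h1, dst_creat h]
  simp only
  split_ifs with h2
  · rfl
  · have h3 : (i : ℕ) = N := by have := i.isLt; omega
    rw [h3, dst_top, Nat.cast_zero]

/-! ### Counting -/

theorem mu_le (D : ℕ → Bool) (N j : ℕ) (hj : j ≤ N) : mu D N j ≤ N + 1 := by
  unfold mu
  have h1 : ((Ico (j + 1) (N + 1)).filter fun u => D u = true).card ≤ N - j := by
    refine (card_filter_le _ _).trans ?_
    rw [Nat.card_Ico]; omega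
  have h2 : (((Ico (j + 1) (N + 1)).filter fun u => D u = true).card : ℝ) ≤ N - j := by
    rw [← Nat.cast_sub hj]; exact_mod_cast h1
  have h3 : (if D j = true then (j : ℝ) + 1 else 0) ≤ (j : ℝ) + 1 := by
    split_ifs
    · exact le_rfl
    · positivity
  linarith

theorem mu_inj (N : ℕ) : ∀ D₁ D₂ : ℕ → Bool,
    ∏ j ∈ Icc 1 N, (X - C (mu D₁ N j)) = ∏ j ∈ Icc 1 N, (X - C (mu D₂ N j)) →
    ∀ j, 1 ≤ j → j ≤ N → D₁ j = D₂ j := by
  induction N with
  | zero => intro _ _ _ j h1 h2; omega
  | succ N ih =>
    have hne : ∀ D₁ D₂ : ℕ → Bool, D₁ (N + 1) = true → D₂ (N + 1) = false →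
        ∏ j ∈ Icc 1 (N + 1), (X - C (mu D₁ (N + 1) j)) ≠
          ∏ j ∈ Icc 1 (N + 1), (X - C (mu D₂ (N + 1) j)) := by
      intro D₁ D₂ h1 h2 h
      have e1 := prod_mu_update D₁ N (D₁ (N + 1)) fun r => X - C r
      have e2 := prod_mu_update D₂ N (D₂ (N + 1)) fun r => X - C r
      rw [Function.update_eq_self, h1] at e1
      rw [Function.update_eq_self, h2] at e2
      rw [e1, e2] at h
      have h3 := congrArg (fun p => p.eval ((N : ℝ) + 2)) h
      simp only [if_true, Bool.false_eq_true, if_false, eval_mul, eval_sub, eval_X, eval_C,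
        sub_self, zero_mul, sub_zero, add_zero, eval_prod] at h3
      have h4 : (0 : ℝ) < ((N : ℝ) + 2) * ∏ j ∈ Icc 1 N, ((N : ℝ) + 2 - mu D₂ N j) := by
        refine mul_pos (by positivity) (prod_pos fun j hj => ?_)
        rw [mem_Icc] at hj
        have := mu_le D₂ N j hj.2
        linarith
      linarith
    intro D₁ D₂ h
    have htop : D₁ (N + 1) = D₂ (N + 1) := by
      cases h1 : D₁ (N + 1) <;> cases h2 : D₂ (N + 1)
      · rfl
      · exact absurd h.symm (hne D₂ D₁ h2 h1)
      · exact absurd h (hne D₁ D₂ h1 h2)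
      · rfl
    have hrec : ∏ j ∈ Icc 1 N, (X - C (mu D₁ N j)) = ∏ j ∈ Icc 1 N, (X - C (mu D₂ N j)) := by
      have e1 := prod_mu_update D₁ N (D₁ (N + 1)) fun r => X - C r
      have e2 := prod_mu_update D₂ N (D₂ (N + 1)) fun r => X - C r
      rw [Function.update_eq_self] at e1 e2
      rw [e1, e2, htop] at h
      have h3 := mul_left_cancel₀ (X_sub_C_ne_zero _) h
      have h4 := congrArg (fun p => p.comp (X + C (if D₂ (N + 1) = true then (1 : ℝ) else 0))) h3
      simp only [Polynomial.prod_comp, sub_comp, X_comp, C_comp] at h4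
      have h5 : ∀ D : ℕ → Bool, ∀ j : ℕ, (X + C (if D₂ (N + 1) = true then (1 : ℝ) else 0) -
          C (mu D N j + if D₂ (N + 1) = true then (1 : ℝ) else 0) : ℝ[X]) = X - C (mu D N j) := by
        intro D j
        rw [map_add]; ring
      simpa only [h5] using h4
    intro j h1 h2
    rcases eq_or_lt_of_le h2 with h3 | h3
    · rw [h3]; exact htop
    · exact ih D₁ D₂ hrec j h1 (by omega)

/-- creation sequence from its relevant part -/
def exD (N : ℕ) (d : Fin N → Bool) (i : ℕ) : Bool :=
  if h : 0 < i ∧ i ≤ N then d ⟨i - 1, by omega⟩ else false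

theorem creat_congr {V : Type*} {N : ℕ} {e : Fin (N + 1) ≃ V} {D D' : ℕ → Bool}
    {G : SimpleGraph V} (h : Creat N e D G) (hD : ∀ j, 1 ≤ j → j ≤ N → D j = D' j) :
    Creat N e D' G := by
  intro i j hij
  have h1 : (i : ℕ) < j := hij
  have h2 := j.isLt
  rw [h i j hij, hD j (by omega) (by omega)]

theorem la_det {N : ℕ} {e e' : Fin (N + 1) ≃ Fin (N + 1)} {D : ℕ → Bool}
    {G H : SimpleGraph (Fin (N + 1))} [DecidableRel G.Adj] [DecidableRel H.Adj]
    (h : Creat N e D G) (h' : Creat N e' D H) : la G = la H := by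
  refine la_unique G (la H) (la_anti H) ?_
  rw [charpoly_creat h, ← charpoly_creat h', la_charpoly]

open Classical in
/-- the spectrum of the threshold graph with creation sequence `d` -/
noncomputable def sp (N : ℕ) (d : Fin N → Bool) : Fin (N + 1) → ℝ := la (GD N (exD N d))

open Classical in
theorem TS_eq_range (N : ℕ) : TS N = Set.range (sp N) := by
  ext x
  constructor
  · rintro ⟨G, inst, e, D, hG, rfl⟩
    refine ⟨fun j => D (j + 1), ?_⟩
    unfold sp
    refine la_det (creat_GD N _) (creat_congr hG fun j h1 h2 => ?_)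
    unfold exD
    rw [dif_pos ⟨h1, h2⟩]
    simp only
    rw [Nat.sub_add_cancel h1]
  · rintro ⟨d, rfl⟩
    exact ⟨GD N (exD N d), inferInstance, Equiv.refl _, exD N d, creat_GD N _, rfl⟩

theorem prod_nu (D : ℕ → Bool) (N : ℕ) : ∏ j : Fin (N + 1), (X - C (nu D N j)) =
    (∏ j ∈ Icc 1 N, (X - C (mu D N j))) * X := by
  rw [Fin.prod_univ_eq_prod_range (fun j => (X - C (nu D N j))) (N + 1), prod_range_succ']
  have h0 : nu D N 0 = 0 := by simp [nu]
  rw [h0, map_zero, sub_zero]
  congr 1
  rw [show Icc 1 N = Ico (0 + 1) (N + 1) by ext; simp,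
    ← Finset.prod_Ico_add' (fun j => (X - C (mu D N j))) 0 N 1, Nat.Ico_zero_eq_range]
  refine prod_congr rfl fun j _ => ?_
  unfold nu
  rw [if_neg (by omega)]

theorem sp_inj (N : ℕ) : Function.Injective (sp N) := by
  classical
  intro d₁ d₂ h
  unfold sp at h
  have h1 := la_charpoly (GD N (exD N d₁))
  rw [h, ← la_charpoly, charpoly_creat (creat_GD N _), charpoly_creat (creat_GD N _), prod_nu,
    prod_nu] at h1
  have h2 := mu_inj N _ _ (mul_right_cancel₀ X_ne_zero h1)
  funext j
  have h3 := h2 (j + 1) (by omega) (by have := j.isLt; omega)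
  unfold exD at h3
  have hj := j.isLt
  rw [dif_pos ⟨by omega, by omega⟩, dif_pos ⟨by omega, by omega⟩] at h3
  simpa using h3

theorem ncard_TS (N : ℕ) : (TS N).ncard = 2 ^ N := by
  rw [TS_eq_range, ← Set.image_univ, Set.ncard_image_of_injective _ (sp_inj N), Set.ncard_univ,
    Nat.card_eq_fintype_card]
  simp

theorem extreme_eq (N : ℕ) (S : Set (Fin (N + 1) → ℝ)) (h1 : TS N ⊆ S) (h2 : S ⊆ Poly N) :
    convexHull ℝ S = Poly N ∧ (convexHull ℝ S).extremePoints ℝ = TS N := by
  have h : convexHull ℝ S = Poly N := by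
    apply Set.Subset.antisymm (convexHull_min h2 (convex_poly N))
    rw [← hull_TS]
    exact convexHull_mono h1
  refine ⟨h, ?_⟩
  rw [h]
  apply Set.Subset.antisymm _ (TS_extreme N)
  rw [← hull_TS]
  exact extremePoints_convexHull_subset

end Pool.Agent.Helper98x.LapExt
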