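import Pool.Agent.Helper98x.LapExt.Creation

/-!
# Laplacian characteristic polynomial of a threshold graph given by a creation sequence
-/

set_option autoImplicit false

open Finset Polynomial

namespace Pool.Agent.Helper98x.LapExt

/-- the Laplacian eigenvectors of all threshold graphs -/
noncomputable def wv (j t : ℕ) : ℝ :=
  if j = 0 then 1 else if t < j then 1 else if t = j then -(j : ℝ) else 0

theorem wv_zero (t : ℕ) : wv 0 t = 1 := by simp [wv]

theorem wv_lt {j t : ℕ} (h : t < j) : wv j t = 1 := by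
  unfold wv; rw [if_neg (by omega), if_pos h]

theorem wv_self {j : ℕ} (h : 0 < j) : wv j j = -(j : ℝ) := by
  unfold wv; rw [if_neg (by omega), if_neg (by omega), if_pos rfl]

theorem wv_gt {j t : ℕ} (h : 0 < j) (h' : j < t) : wv j t = 0 := by
  unfold wv; rw [if_neg (by omega), if_neg (by omega), if_neg (by omega)]

theorem sum_wv (M j : ℕ) (hj : 0 < j) (hM : j < M) (f : ℕ → ℝ) :
    ∑ t ∈ range M, wv j t * f t = (∑ t ∈ range j, f t) - j * f j := by
  rw [← Finset.sum_range_add_sum_Ico _ (show j + 1 ≤ M from hM), sum_range_succ, wv_self hj,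
    sum_congr rfl fun t ht => by rw [wv_lt (mem_range.mp ht), one_mul],
    sum_eq_zero (s := Ico (j + 1) M) fun t ht => by
      rw [mem_Ico] at ht; rw [wv_gt hj (by omega), zero_mul]]
  ring

theorem wv_orth (N i j : ℕ) (hij : i < j) (hj : j ≤ N) :
    ∑ t ∈ range (N + 1), wv j t * wv i t = 0 := by
  rw [sum_wv (N + 1) j (by omega) (by omega)]
  rcases Nat.eq_zero_or_pos i with h | h
  · subst h
    simp [wv_zero]
  · have := sum_wv j i h hij (fun _ => 1)
    simp only [mul_one, sum_const, card_range, nsmul_eq_mul] at this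
    rw [this, wv_gt h hij]
    ring

theorem wv_norm (N j : ℕ) : 0 < ∑ t ∈ range (N + 1), wv j t * wv j t := by
  refine sum_pos' (fun t _ => mul_self_nonneg _) ⟨0, mem_range.mpr (by omega), ?_⟩
  have : wv j 0 = 1 := by
    rcases Nat.eq_zero_or_pos j with h | h
    · rw [h, wv_zero]
    · exact wv_lt h
  rw [this]; norm_num

/-- adjacency of the creation sequence `D` as a real number -/
noncomputable def ad (D : ℕ → Bool) (t u : ℕ) : ℝ :=
  if t = u then 0 else if D (max t u) = true then 1 else 0

/-- eigenvalues -/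
noncomputable def nu (D : ℕ → Bool) (N j : ℕ) : ℝ := if j = 0 then 0 else mu D N j

theorem card_filter_real (D : ℕ → Bool) (a b : ℕ) :
    (((Ico a b).filter fun u => D u = true).card : ℝ) = ∑ u ∈ Ico a b, if D u = true then (1 : ℝ) else 0 := by
  rw [card_filter]; push_cast; rfl

theorem ad_split (D : ℕ → Bool) (N t : ℕ) (ht : t ≤ N) (f : ℕ → ℝ) :
    ∑ u ∈ range (N + 1), ad D t u * f u =
      (if D t = true then (1 : ℝ) else 0) * (∑ u ∈ range t, f u) +
        ∑ u ∈ Ico (t + 1) (N + 1), (if D u = true then (1 : ℝ) else 0) * f u := by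
  rw [← Finset.sum_range_add_sum_Ico _ (show t + 1 ≤ N + 1 by omega), sum_range_succ, mul_sum]
  have h1 : ad D t t = 0 := by simp [ad]
  rw [h1, zero_mul, add_zero]
  congr 1
  · refine sum_congr rfl fun u hu => ?_
    rw [mem_range] at hu
    unfold ad
    rw [if_neg (by omega), max_eq_left hu.le]
  · refine sum_congr rfl fun u hu => ?_
    rw [mem_Ico] at hu
    unfold ad
    rw [if_neg (by omega), max_eq_right (by omega)]

theorem eig (D : ℕ → Bool) (N j t : ℕ) (hj : j ≤ N) (ht : t ≤ N) :
    ∑ u ∈ range (N + 1), ad D t u * (wv j t - wv j u) = nu D N j * wv j t := by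
  rw [ad_split D N t ht]
  rcases Nat.eq_zero_or_pos j with h0 | h0
  · subst h0
    simp [wv_zero, nu]
  have hnu : nu D N j = mu D N j := by unfold nu; rw [if_neg (by omega)]
  rw [hnu]
  unfold mu
  rw [card_filter_real]
  rcases lt_trichotomy t j with h | h | h
  · have e1 : ∑ u ∈ range t, (wv j t - wv j u) = 0 := by
      refine sum_eq_zero fun u hu => ?_
      rw [mem_range] at hu
      rw [wv_lt h, wv_lt (by omega), sub_self]
    rw [e1, mul_zero, zero_add, wv_lt h, mul_one]
    rw [← Finset.sum_Ico_consecutive _ (show t + 1 ≤ j by omega) (show j ≤ N + 1 by omega),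
      Finset.sum_eq_sum_Ico_succ_bot (show j < N + 1 by omega)]
    rw [sum_eq_zero (s := Ico (t + 1) j) fun u hu => by
      rw [mem_Ico] at hu; rw [wv_lt (by omega : u < j), sub_self, mul_zero]]
    rw [zero_add, wv_self h0]
    congr 1
    · split_ifs <;> ring
    · refine sum_congr rfl fun u hu => ?_
      rw [mem_Ico] at hu
      rw [wv_gt h0 (by omega), sub_zero, mul_one]
  · subst h
    rw [wv_self h0]
    have e1 : ∑ u ∈ range t, (-(t : ℝ) - wv t u) = ∑ _u ∈ range t, (-(t : ℝ) - 1) :=
      sum_congr rfl fun u hu => by rw [wv_lt (mem_range.mp hu)]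
    have e2 : ∑ u ∈ Ico (t + 1) (N + 1), (if D u = true then (1 : ℝ) else 0) * (-(t : ℝ) - wv t u) =
        ∑ u ∈ Ico (t + 1) (N + 1), (if D u = true then (1 : ℝ) else 0) * (-(t : ℝ)) :=
      sum_congr rfl fun u hu => by
        rw [mem_Ico] at hu
        rw [wv_gt h0 (show t < u by omega), sub_zero]
    rw [e1, e2, sum_const, card_range, nsmul_eq_mul, ← sum_mul, add_mul]
    congr 1
    split_ifs <;> ring
  · rw [wv_gt h0 h, mul_zero]
    have e1 : ∑ u ∈ range t, (0 - wv j u) = 0 := by
      have := sum_wv t j h0 h (fun _ => 1)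
      simp only [mul_one, sum_const, card_range, nsmul_eq_mul, sub_self] at this
      simp only [zero_sub, sum_neg_distrib, this, neg_zero]
    rw [e1, mul_zero, zero_add]
    refine sum_eq_zero fun u hu => ?_
    rw [mem_Ico] at hu
    rw [wv_gt h0 (show j < u by omega), sub_zero, mul_zero]

/-- `G` is built along the listing `e` of its vertices by the creation sequence `D` -/
def Creat {V : Type*} (N : ℕ) (e : Fin (N + 1) ≃ V) (D : ℕ → Bool) (G : SimpleGraph V) : Prop :=
  ∀ i j : Fin (N + 1), i < j → (G.Adj (e i) (e j) ↔ D j = true)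

theorem creat_ad {V : Type*} {N : ℕ} {e : Fin (N + 1) ≃ V} {D : ℕ → Bool} {G : SimpleGraph V}
    [DecidableRel G.Adj] (h : Creat N e D G) (t u : Fin (N + 1)) :
    (if G.Adj (e t) (e u) then (1 : ℝ) else 0) = ad D t u := by
  unfold ad
  rcases lt_trichotomy t u with h1 | h1 | h1
  · have h2 : (t : ℕ) < u := h1
    rw [if_neg (by omega : ¬ (t : ℕ) = u), max_eq_right h2.le]
    simp only [h t u h1]
  · subst h1; simp
  · have h2 : (u : ℕ) < t := h1
    rw [if_neg (by omega : ¬ (t : ℕ) = u), max_eq_left h2.le]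
    simp only [G.adj_comm (e t), h u t h1]

theorem charpoly_creat {V : Type*} [Fintype V] [DecidableEq V] {N : ℕ} {e : Fin (N + 1) ≃ V}
    {D : ℕ → Bool} {G : SimpleGraph V} [DecidableRel G.Adj] (h : Creat N e D G) :
    (G.lapMatrix ℝ).charpoly = ∏ j : Fin (N + 1), (X - C (nu D N j)) := by
  let L := (G.lapMatrix ℝ).submatrix e e
  have hL : L.charpoly = (G.lapMatrix ℝ).charpoly := by
    have := Matrix.charpoly_reindex e.symm (G.lapMatrix ℝ)
    rw [← this]
    rfl
  let W : Matrix (Fin (N + 1)) (Fin (N + 1)) ℝ := Matrix.of fun t j => wv j t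
  have hWW : W.transpose * W = Matrix.diagonal fun j : Fin (N + 1) =>
      ∑ t ∈ range (N + 1), wv j t * wv j t := by
    ext i j
    rw [Matrix.mul_apply, Matrix.diagonal_apply]
    simp only [Matrix.transpose_apply, W, Matrix.of_apply]
    rw [Fin.sum_univ_eq_sum_range (fun t => wv i t * wv j t) (N + 1)]
    have hi := i.isLt
    have hj := j.isLt
    rcases lt_trichotomy i j with h1 | h1 | h1
    · have h2 : (i : ℕ) < j := h1
      rw [if_neg h1.ne, ← wv_orth N i j h2 (by omega)]
      exact sum_congr rfl fun t _ => mul_comm _ _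
    · subst h1; rw [if_pos rfl]
    · have h2 : (j : ℕ) < i := h1
      rw [if_neg h1.ne', wv_orth N j i h2 (by omega)]
  have hdet : W.det ≠ 0 := by
    intro h0
    have h1 := congrArg Matrix.det hWW
    rw [Matrix.det_mul, h0, mul_zero, Matrix.det_diagonal] at h1
    have h2 : ∀ j : Fin (N + 1), 0 < ∑ t ∈ range (N + 1), wv j t * wv j t := fun j =>
      wv_norm N j
    exact absurd h1.symm (prod_pos fun j _ => h2 j).ne'
  have hLW : L * W = W * Matrix.diagonal fun j : Fin (N + 1) => nu D N j := by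
    ext t j
    rw [Matrix.mul_diagonal]
    have h1 : (L * W) t j = ∑ u : Fin (N + 1), G.lapMatrix ℝ (e t) (e u) * wv j u := by
      rw [Matrix.mul_apply]
      rfl
    have h2 : ∑ u : Fin (N + 1), G.lapMatrix ℝ (e t) (e u) * wv j u =
        (G.lapMatrix ℝ).mulVec (fun v => wv j (e.symm v)) (e t) := by
      rw [Matrix.mulVec, dotProduct, ← Equiv.sum_comp e]
      simp
    rw [h1, h2, Pool.Agent.Helper827.Brou.lap_apply, ← Equiv.sum_comp e]
    simp only [Equiv.symm_apply_apply]
    have h3 := eig D N j t (by have := j.isLt; omega) (by have := t.isLt; omega)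
    rw [← Fin.sum_univ_eq_sum_range (fun u => ad D t u * (wv j t - wv j u)) (N + 1)] at h3
    simp only [W, Matrix.of_apply]
    rw [mul_comm, ← h3]
    exact sum_congr rfl fun u _ => by rw [creat_ad h]
  have hW : IsUnit W := (Matrix.isUnit_iff_isUnit_det _).mpr (isUnit_iff_ne_zero.mpr hdet)
  obtain ⟨U, hU⟩ := hW
  have hconj := Matrix.charpoly_units_conj U (Matrix.diagonal fun j : Fin (N + 1) => nu D N j)
  rw [hU, ← hLW, mul_assoc, Matrix.mul_nonsing_inv _ (isUnit_iff_ne_zero.mpr hdet), mul_one] at hconj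
  rw [← hL, hconj, Matrix.charpoly_diagonal]

end Pool.Agent.Helper98x.LapExt
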