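import Pool.Agent.Helper98x.LapExt.Spectra

/-!
# The convex hull of Laplacian spectra
-/

set_option autoImplicit false

open Finset Polynomial

namespace Pool.Agent.Helper98x.LapExt

/-- isotonic regression -/
theorem isotone (N : ℕ) (c : ℕ → ℝ) : ∃ d : ℕ → ℝ, Anti N d ∧
    (∀ x : ℕ → ℝ, Anti N x → ∑ i ∈ range N, c i * x i ≤ ∑ i ∈ range N, d i * x i) ∧
    (∀ y : ℕ → ℝ, (∀ i j, i < N → j < N → d i = d j → y i = y j) →
      ∑ i ∈ range N, d i * y i ≤ ∑ i ∈ range N, c i * y i) := by
  let K : Set (EuclideanSpace ℝ (Fin N)) := {w | ∀ i j : Fin N, i ≤ j → w j ≤ w i}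
  have hK : Convex ℝ K := by
    intro v hv w hw a b ha hb _ i j hij
    have h1 := mul_le_mul_of_nonneg_left (hv i j hij) ha
    have h2 := mul_le_mul_of_nonneg_left (hw i j hij) hb
    simp only [PiLp.add_apply, PiLp.smul_apply, smul_eq_mul]
    linarith
  have hKc : IsClosed K := by
    have : K = ⋂ (i : Fin N) (j : Fin N) (_ : i ≤ j), {w : EuclideanSpace ℝ (Fin N) | w j ≤ w i} := by
      ext w; simp [K]
    rw [this]
    refine isClosed_iInter fun i => isClosed_iInter fun j => isClosed_iInter fun _ => ?_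
    exact isClosed_le (by fun_prop) (by fun_prop)
  have hK0 : (0 : EuclideanSpace ℝ (Fin N)) ∈ K := fun i j _ => le_rfl
  let u : EuclideanSpace ℝ (Fin N) := WithLp.toLp 2 fun i : Fin N => c i
  obtain ⟨v, hv, hv'⟩ := exists_norm_eq_iInf_of_complete_convex ⟨0, hK0⟩ hKc.isComplete hK u
  rw [norm_eq_iInf_iff_real_inner_le_zero hK hv] at hv'
  have hin : ∀ w : EuclideanSpace ℝ (Fin N), inner ℝ (u - v) w =
      ∑ i : Fin N, (c i - v i) * w i := by
    intro w
    rw [PiLp.inner_apply]
    refine sum_congr rfl fun i _ => ?_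
    simp [u, mul_comm]
  let d : ℕ → ℝ := ext0 fun i => v i
  have hd : ∀ i : Fin N, d i = v i := fun i => ext0_val _ i
  have hsum : ∀ x : ℕ → ℝ, ∑ i : Fin N, (c i - v i) * x i =
      ∑ i ∈ range N, c i * x i - ∑ i ∈ range N, d i * x i := by
    intro x
    rw [← sum_sub_distrib, ← Fin.sum_univ_eq_sum_range (fun i => c i * x i - d i * x i)]
    refine sum_congr rfl fun i _ => ?_
    rw [hd]; ring
  refine ⟨d, ?_, ?_, ?_⟩
  · intro i j hij hj
    have := hv ⟨i, by omega⟩ ⟨j, hj⟩ hij
    rw [← hd, ← hd] at this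
    exact this
  · intro x hx
    have hw : v + WithLp.toLp 2 (fun i : Fin N => x i) ∈ K := by
      intro i j hij
      have h1 := hv i j hij
      have h2 := hx i j hij j.isLt
      simp only [PiLp.add_apply]
      linarith
    have h1 := hv' _ hw
    rw [add_sub_cancel_left, hin] at h1
    simp only at h1
    rw [hsum] at h1
    linarith
  · intro y hy
    have hev : ∀ i j : Fin N, i ≤ j → ∀ᶠ ε : ℝ in nhdsWithin 0 (Set.Ioi 0),
        v j - ε * y j ≤ v i - ε * y i := by
      intro i j hij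
      rcases eq_or_lt_of_le (hv i j hij) with h | h
      · have : y i = y j := hy i j i.isLt j.isLt (by rw [hd, hd, h])
        refine Filter.Eventually.of_forall fun ε => ?_
        rw [h, this]
      · have hc : Continuous fun ε : ℝ => (v i - ε * y i) - (v j - ε * y j) := by fun_prop
        have h0 : 0 < (fun ε : ℝ => (v i - ε * y i) - (v j - ε * y j)) 0 := by
          simp only; linarith
        have h2 := hc.continuousAt.eventually (lt_mem_nhds h0)
        refine (h2.filter_mono nhdsWithin_le_nhds).mono fun ε hε => ?_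
        simp only at hε
        linarith
    have hev2 : ∀ᶠ ε : ℝ in nhdsWithin 0 (Set.Ioi 0), ∀ i j : Fin N, i ≤ j →
        v j - ε * y j ≤ v i - ε * y i := by
      rw [Filter.eventually_all]; intro i
      rw [Filter.eventually_all]; intro j
      by_cases hij : i ≤ j
      · exact (hev i j hij).mono fun ε hε _ => hε
      · exact Filter.Eventually.of_forall fun ε h => absurd h hij
    obtain ⟨ε, hε1, hε2⟩ := (hev2.and self_mem_nhdsWithin).exists
    have hw : v - ε • WithLp.toLp 2 (fun i : Fin N => y i) ∈ K := by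
      intro i j hij
      simp only [PiLp.sub_apply, PiLp.smul_apply, smul_eq_mul]
      exact hε1 i j hij
    have h1 := hv' _ hw
    rw [sub_sub_cancel_left, inner_neg_right, inner_smul_right, hin] at h1
    simp only at h1
    rw [hsum] at h1
    have h2 : 0 < ε := hε2
    have h3 : 0 ≤ ε * (∑ i ∈ range N, c i * y i - ∑ i ∈ range N, d i * y i) := by linarith
    have h4 := nonneg_of_mul_nonneg_right h3 h2
    linarith

/-- the graph of a creation sequence -/
def GD (N : ℕ) (D : ℕ → Bool) : SimpleGraph (Fin (N + 1)) where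
  Adj i j := i ≠ j ∧ D (max (i : ℕ) j) = true
  symm := ⟨fun i j h => ⟨h.1.symm, by rw [max_comm]; exact h.2⟩⟩
  loopless := ⟨fun i h => h.1 rfl⟩

theorem creat_GD (N : ℕ) (D : ℕ → Bool) : Creat N (Equiv.refl _) D (GD N D) := by
  intro i j hij
  have h : (i : ℕ) < j := hij
  show i ≠ j ∧ D (max (i : ℕ) j) = true ↔ _
  rw [max_eq_right h.le]
  exact ⟨fun h => h.2, fun h => ⟨hij.ne, h⟩⟩

/-- padding a sequence by a last zero -/
noncomputable def pad (N : ℕ) (y : ℕ → ℝ) : Fin (N + 1) → ℝ :=
  fun i => if (i : ℕ) < N then y i else 0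

theorem yv_nonneg (N : ℕ) (c : ℕ → ℝ) (i : ℕ) : 0 ≤ yv N c i := by
  unfold yv
  have : (0 : ℝ) ≤ if 0 < c i then 1 else 0 := by split_ifs <;> norm_num
  positivity

/-- spectra of threshold graphs -/
def TS (N : ℕ) : Set (Fin (N + 1) → ℝ) :=
  {x | ∃ (G : SimpleGraph (Fin (N + 1))) (_ : DecidableRel G.Adj) (e : Equiv.Perm (Fin (N + 1)))
    (D : ℕ → Bool), Creat N e D G ∧ la G = x}

theorem la_inst {n : ℕ} (G : SimpleGraph (Fin n)) (i1 i2 : DecidableRel G.Adj) :
    @la n G i1 = @la n G i2 := by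
  congr

theorem anti_mem_TS (N : ℕ) (c : ℕ → ℝ) (hc : Anti N c) : pad N (yv N c) ∈ TS N := by
  classical
  obtain ⟨D, hD⟩ := real_of_anti N c hc
  exact ⟨GD N D, inferInstance, Equiv.refl _, D, creat_GD N D,
    la_creat (creat_GD N D) (yv N c) (yv_anti hc) (fun i _ => yv_nonneg N c i) (hD fun r => X - C r)⟩

theorem TS_sub (N : ℕ) : TS N ⊆ Poly N := by
  rintro _ ⟨G, _, _, _, _, rfl⟩
  exact la_mem G

theorem finite_TS (N : ℕ) : (TS N).Finite := by
  classical
  refine (Set.finite_range fun G : SimpleGraph (Fin (N + 1)) => la G).subset ?_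
  rintro _ ⟨G, i, _, _, _, rfl⟩
  exact ⟨G, la_inst G _ _⟩

theorem sum_pad (N : ℕ) (c y : ℕ → ℝ) :
    ∑ i : Fin (N + 1), c i * pad N y i = ∑ i ∈ range N, c i * y i := by
  rw [Fin.sum_univ_castSucc]
  have h1 : pad N y (Fin.last N) = 0 := by simp [pad]
  rw [h1, mul_zero, add_zero, ← Fin.sum_univ_eq_sum_range (fun i => c i * y i)]
  refine sum_congr rfl fun i _ => ?_
  simp [pad]

theorem pad_ext0 {N : ℕ} (x : Fin (N + 1) → ℝ) (h : x (Fin.last N) = 0) : pad N (ext0 x) = x := by
  funext i
  unfold pad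
  split_ifs with h1
  · exact ext0_val x i
  · have : i = Fin.last N := by
      ext; simp only [Fin.val_last]; have := i.isLt; omega
    rw [this, h]

theorem anti_ext0 {N : ℕ} {x : Fin (N + 1) → ℝ} (h : Antitone x) : Anti N (ext0 x) := by
  intro i j hij hj
  unfold ext0
  rw [dif_pos (by omega), dif_pos (by omega)]
  exact h (by simpa using hij)

theorem poly_sub (N : ℕ) : Poly N ⊆ convexHull ℝ (TS N) := by
  intro x hx
  by_contra hcon
  have hclosed : IsClosed (convexHull ℝ (TS N)) := (finite_TS N).isClosed_convexHull ℝ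
  obtain ⟨f, u, hf1, hf2⟩ := geometric_hahn_banach_closed_point (convex_convexHull ℝ (TS N))
    hclosed hcon
  let c : ℕ → ℝ := ext0 fun i : Fin (N + 1) => f (Pi.single i 1)
  have hf : ∀ x : Fin (N + 1) → ℝ, f x = ∑ i : Fin (N + 1), c i * x i := by
    intro x
    have h1 : x = ∑ i, x i • (Pi.single i (1 : ℝ) : Fin (N + 1) → ℝ) := by
      rw [← Finset.univ_sum_single x]
      refine sum_congr rfl fun i _ => ?_
      rw [← Pi.single_smul]
      simp
    conv_lhs => rw [h1, map_sum]
    refine sum_congr rfl fun i _ => ?_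
    rw [map_smul, smul_eq_mul, mul_comm]
    congr 1
    exact (ext0_val (fun i : Fin (N + 1) => f (Pi.single i 1)) i).symm
  obtain ⟨d, hd1, hd2, hd3⟩ := isotone N c
  have h1 := hf1 _ (subset_convexHull ℝ _ (anti_mem_TS N d hd1))
  have h2 : f x = ∑ i ∈ range N, c i * ext0 x i := by
    rw [hf, ← sum_pad, pad_ext0 x hx.2.1]
  have h3 : f (pad N (yv N d)) = ∑ i ∈ range N, c i * yv N d i := by
    rw [hf, sum_pad]
  have h4 := hd2 (ext0 x) (anti_ext0 hx.1)
  have h5 := hd3 (yv N d) (fun i j _ _ h => by unfold yv; rw [h])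
  have h6 := support_le hx.2.2 hd1
  rw [← support_eq] at h6
  linarith

theorem convex_poly (N : ℕ) : Convex ℝ (Poly N) := by
  intro x hx y hy a b ha hb hab
  refine ⟨?_, ?_, ?_⟩
  · intro i j hij
    have h1 := mul_le_mul_of_nonneg_left (hx.1 hij) ha
    have h2 := mul_le_mul_of_nonneg_left (hy.1 hij) hb
    simp only [Pi.add_apply, Pi.smul_apply, smul_eq_mul]
    linarith
  · simp only [Pi.add_apply, Pi.smul_apply, smul_eq_mul, hx.2.1, hy.2.1]
    ring
  · intro k l hkl hl
    have h0 : ∀ i, ext0 (a • x + b • y) i = a * ext0 x i + b * ext0 y i := by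
      intro i
      unfold ext0
      split_ifs
      · rfl
      · ring
    simp only [h0, sum_add_distrib, ← mul_sum]
    have h1 := mul_le_mul_of_nonneg_left (hx.2.2 k l hkl hl) ha
    have h2 := mul_le_mul_of_nonneg_left (hy.2.2 k l hkl hl) hb
    have h3 : (k : ℝ) * (l + 1) = a * (k * (l + 1)) + b * (k * (l + 1)) := by
      rw [← add_mul, hab, one_mul]
    rw [h3]
    linarith

theorem hull_TS (N : ℕ) : convexHull ℝ (TS N) = Poly N :=
  Set.Subset.antisymm (convexHull_min (TS_sub N) (convex_poly N)) (poly_sub N)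

theorem mul_le_mul_left' {a b c : ℝ} (h : b ≤ c) (ha : 0 ≤ a) : a * b ≤ a * c :=
  mul_le_mul_of_nonneg_left h ha

theorem TS_extreme (N : ℕ) : TS N ⊆ (Poly N).extremePoints ℝ := by
  rintro _ ⟨G, _, e, D, hG, rfl⟩
  obtain ⟨c, hc1, hc2, _, hc4⟩ := dir_of_creation N D
  have hanti : Anti N c := by
    intro i j hij hj
    rcases eq_or_lt_of_le hij with h | h
    · rw [h]
    · exact (hc1 i j h hj).le
  have hla : la G = pad N (yv N c) :=
    la_creat hG (yv N c) (yv_anti hanti) (fun i _ => yv_nonneg N c i) (hc4 fun r => X - C r)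
  have key : ∀ x ∈ Poly N, MM N c ≤ ∑ i ∈ range N, c i * ext0 x i → x = la G := by
    intro x hx h
    have h1 := support_le hx.2.2 hanti
    have h2 := unique_max hx.2.2 hc1 hc2 (le_antisymm h1 h)
    rw [hla, ← pad_ext0 x hx.2.1]
    funext i
    unfold pad
    split_ifs with h3
    · exact h2 i h3
    · rfl
  rw [mem_extremePoints]
  refine ⟨la_mem G, ?_⟩
  intro x hx y hy ⟨a, b, ha, hb, hab, hxy⟩
  have e1 : ∑ i ∈ range N, c i * ext0 (la G) i = MM N c := by
    rw [← support_eq, ← sum_pad, ← sum_pad, pad_ext0 _ (la_last G), hla]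
  have e2 : ∑ i ∈ range N, c i * ext0 (la G) i =
      a * (∑ i ∈ range N, c i * ext0 x i) + b * ∑ i ∈ range N, c i * ext0 y i := by
    rw [← hxy, mul_sum, mul_sum, ← sum_add_distrib]
    refine sum_congr rfl fun i _ => ?_
    have h0 : ext0 (a • x + b • y) i = a * ext0 x i + b * ext0 y i := by
      unfold ext0
      split_ifs
      · rfl
      · ring
    rw [h0]; ring
  have hx1 := support_le hx.2.2 hanti
  have hy1 := support_le hy.2.2 hanti
  have h5 : a * (∑ i ∈ range N, c i * ext0 x i) + b * (∑ i ∈ range N, c i * ext0 y i) =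
      a * MM N c + b * MM N c := by
    rw [← e2, e1, ← add_mul, hab, one_mul]
  have h6 := mul_le_mul_left' hx1 ha.le
  have h7 := mul_le_mul_left' hy1 hb.le
  constructor
  · apply key x hx
    have : a * MM N c ≤ a * ∑ i ∈ range N, c i * ext0 x i := by linarith
    exact le_of_mul_le_mul_left this ha
  · apply key y hy
    have : b * MM N c ≤ b * ∑ i ∈ range N, c i * ext0 y i := by linarith
    exact le_of_mul_le_mul_left this hb

end Pool.Agent.Helper98x.LapExt
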