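import Mathlib

/-!
# Support function of the two-parameter Brouwer polytope in nonincreasing directions
-/

set_option autoImplicit false

open Finset

namespace Pool.Agent.Helper98x.LapExt

/-- the value of the support function -/
noncomputable def MM (N : ℕ) (c : ℕ → ℝ) : ℝ :=
  (∑ i ∈ range N, ∑ j ∈ range N, max (c i + c j) 0) / 2 + ∑ i ∈ range N, max (c i) 0

/-- the maximiser -/
noncomputable def yv (N : ℕ) (c : ℕ → ℝ) (i : ℕ) : ℝ :=
  (((range N).filter fun j => 0 < c i + c j).card : ℝ) + (if 0 < c i then 1 else 0)

/-- the two-parameter inequalities -/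
def Two (N : ℕ) (x : ℕ → ℝ) : Prop :=
  ∀ k l : ℕ, k ≤ l → l ≤ N →
    (∑ i ∈ range k, x i) + (∑ i ∈ range l, x i) ≤ (∑ i ∈ range N, x i) + k * (l + 1)

/-- nonincreasing on the first `N` coordinates -/
def Anti (N : ℕ) (c : ℕ → ℝ) : Prop := ∀ i j : ℕ, i ≤ j → j < N → c j ≤ c i

theorem MM_nonneg (N : ℕ) (c : ℕ → ℝ) : 0 ≤ MM N c := by
  unfold MM
  have h1 : 0 ≤ ∑ i ∈ range N, ∑ j ∈ range N, max (c i + c j) 0 :=
    sum_nonneg fun i _ => sum_nonneg fun j _ => le_max_right _ _
  have h2 : 0 ≤ ∑ i ∈ range N, max (c i) 0 := sum_nonneg fun i _ => le_max_right _ _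
  linarith

/-- initial segments: a downward closed subset of `range N` is a range -/
theorem exists_cut (N : ℕ) (P : ℕ → Prop) (h : ∀ i j, i ≤ j → j < N → P j → P i) :
    ∃ p, p ≤ N ∧ ∀ i, i < N → (P i ↔ i < p) := by
  classical
  by_cases hex : ∃ i, i < N ∧ ¬ P i
  · refine ⟨Nat.find hex, (Nat.find_spec hex).1.le, fun i hi => ⟨fun hP => ?_, fun hlt => ?_⟩⟩
    · by_contra hcon
      push Not at hcon
      exact (Nat.find_spec hex).2 (h _ _ hcon hi hP)
    · by_contra hP
      exact Nat.find_min hex hlt ⟨hi, hP⟩
  · push Not at hex
    exact ⟨N, le_rfl, fun i hi => ⟨fun _ => hi, fun _ => hex i hi⟩⟩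

theorem sum_ite_lt (N p : ℕ) (hp : p ≤ N) (f : ℕ → ℝ) :
    ∑ i ∈ range N, (if i < p then f i else 0) = ∑ i ∈ range p, f i := by
  rw [← sum_filter]
  congr 1
  ext i
  simp only [mem_filter, mem_range]
  omega

theorem layer (N : ℕ) (x : ℕ → ℝ) (hx : Two N x) :
    ∀ (r : ℕ) (c : ℕ → ℝ), Anti N c → ((range N).filter fun i => c i ≠ 0).card ≤ r →
      ∑ i ∈ range N, c i * x i ≤ MM N c := by
  intro r
  induction r with
  | zero =>
    intro c _ hr
    have h0 : ∀ i ∈ range N, c i = 0 := by
      intro i hi
      by_contra hne
      have : i ∈ (range N).filter fun i => c i ≠ 0 := mem_filter.mpr ⟨hi, hne⟩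
      have := card_pos.mpr ⟨i, this⟩
      omega
    rw [sum_eq_zero fun i hi => by rw [h0 i hi, zero_mul]]
    exact MM_nonneg N c
  | succ r ih =>
    intro c hc hr
    by_cases hz : ((range N).filter fun i => c i ≠ 0).card = 0
    · exact ih c hc (by omega)
    have hne : ((range N).filter fun i => c i ≠ 0).Nonempty := card_pos.mp (by omega)
    obtain ⟨m, hm, hmin⟩ := exists_min_image _ (fun i => |c i|) hne
    rw [mem_filter, mem_range] at hm
    set s : ℝ := |c m| with hs
    have hs0 : 0 < s := abs_pos.mpr hm.2
    obtain ⟨p, hpN, hp⟩ := exists_cut N (fun i => 0 < c i) fun i j hij hj h =>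
      lt_of_lt_of_le h (hc i j hij hj)
    obtain ⟨q, hqN, hq⟩ := exists_cut N (fun i => 0 ≤ c i) fun i j hij hj h =>
      le_trans h (hc i j hij hj)
    have hpq : p ≤ q := by
      by_contra hcon
      push Not at hcon
      have h1 : q < N := by omega
      have h2 := (hp q h1).2 hcon
      have h3 := (hq q h1).1 h2.le
      omega
    have hge : ∀ i, i < p → s ≤ c i := by
      intro i hi
      have hiN : i < N := by omega
      have h1 := (hp i hiN).2 hi
      have h2 := hmin i (mem_filter.mpr ⟨mem_range.mpr hiN, h1.ne'⟩)
      rwa [abs_of_pos h1] at h2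
    have hle : ∀ i, q ≤ i → i < N → c i ≤ -s := by
      intro i hi hiN
      have h1 : c i < 0 := by
        by_contra hcon
        push Not at hcon
        have := (hq i hiN).1 hcon
        omega
      have h2 := hmin i (mem_filter.mpr ⟨mem_range.mpr hiN, h1.ne⟩)
      rw [abs_of_neg h1] at h2
      linarith
    have hmid : ∀ i, p ≤ i → i < q → c i = 0 := by
      intro i hi hiq
      have hiN : i < N := by omega
      have h1 := (hq i hiN).2 hiq
      have h2 : ¬ 0 < c i := fun h => by have := (hp i hiN).1 h; omega
      linarith [not_lt.mp h2]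
    let c' : ℕ → ℝ := fun i => c i - (if i < p then s else 0) + (if q ≤ i then s else 0)
    have c'1 : ∀ i, i < p → c' i = c i - s := by
      intro i hi
      simp only [c', if_pos hi, if_neg (show ¬ q ≤ i by omega)]; ring
    have c'2 : ∀ i, p ≤ i → i < q → c' i = 0 := by
      intro i hi hiq
      simp only [c', if_neg (show ¬ i < p by omega), if_neg (show ¬ q ≤ i by omega), hmid i hi hiq]
      ring
    have c'3 : ∀ i, q ≤ i → c' i = c i + s := by
      intro i hi
      simp only [c', if_neg (show ¬ i < p by omega), if_pos hi]; ring
    have c'pos : ∀ i, i < p → 0 ≤ c' i := fun i hi => by rw [c'1 i hi]; linarith [hge i hi]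
    have c'neg : ∀ i, q ≤ i → i < N → c' i ≤ 0 := fun i hi hiN => by
      rw [c'3 i hi]; linarith [hle i hi hiN]
    have hc' : Anti N c' := by
      intro i j hij hj
      rcases lt_or_ge j p with h1 | h1
      · rw [c'1 i (by omega), c'1 j h1]
        linarith [hc i j hij hj]
      · rcases lt_or_ge j q with h2 | h2
        · rw [c'2 j h1 h2]
          rcases lt_or_ge i p with h3 | h3
          · exact c'pos i h3
          · rw [c'2 i h3 (by omega)]
        · rcases lt_or_ge i p with h3 | h3
          · exact (c'neg j h2 hj).trans (c'pos i h3)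
          · rcases lt_or_ge i q with h4 | h4
            · rw [c'2 i h3 h4]; exact c'neg j h2 hj
            · rw [c'3 i h4, c'3 j h2]
              linarith [hc i j hij hj]
    have hcard : ((range N).filter fun i => c' i ≠ 0).card ≤ r := by
      have hss : ((range N).filter fun i => c' i ≠ 0) ⊂ ((range N).filter fun i => c i ≠ 0) := by
        rw [ssubset_iff_of_subset]
        · refine ⟨m, mem_filter.mpr ⟨mem_range.mpr hm.1, hm.2⟩, ?_⟩
          rw [mem_filter, not_and, not_not]
          intro _
          rcases lt_or_ge m p with h1 | h1
          · rw [c'1 m h1, hs, abs_of_pos ((hp m hm.1).2 h1)]; ring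
          · rcases lt_or_ge m q with h2 | h2
            · exact c'2 m h1 h2
            · have h3 : c m < 0 := by
                by_contra hcon
                push Not at hcon
                have := (hq m hm.1).1 hcon
                omega
              rw [c'3 m h2, hs, abs_of_neg h3]; ring
        · intro i hi
          rw [mem_filter, mem_range] at hi ⊢
          refine ⟨hi.1, fun h0 => hi.2 ?_⟩
          have h1 : ¬ i < p := fun h => by
            have := (hp i hi.1).2 h
            linarith
          have h2 : i < q := (hq i hi.1).1 h0.ge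
          exact c'2 i (by omega) h2
      have := card_lt_card hss
      omega
    have hih := ih c' hc' hcard
    -- the left-hand sides
    have hL : ∑ i ∈ range N, c i * x i = ∑ i ∈ range N, c' i * x i +
        s * ((∑ i ∈ range p, x i) + (∑ i ∈ range q, x i) - ∑ i ∈ range N, x i) := by
      have e1 : ∀ i, c i * x i = c' i * x i + s * ((if i < p then x i else 0) +
          (if i < q then x i else 0) - x i) := by
        intro i
        by_cases h1 : i < p
        · simp only [c', if_pos h1, if_neg (show ¬ q ≤ i by omega), if_pos (show i < q by omega)]; ring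
        · by_cases h2 : i < q
          · simp only [c', if_neg h1, if_neg (show ¬ q ≤ i by omega), if_pos h2]; ring
          · simp only [c', if_neg h1, if_pos (show q ≤ i by omega), if_neg h2]; ring
      rw [sum_congr rfl fun i _ => e1 i, sum_add_distrib, ← mul_sum, sum_sub_distrib,
        sum_add_distrib, sum_ite_lt N p hpN, sum_ite_lt N q hqN]
    -- the right-hand sides
    have hR : MM N c = MM N c' + s * (p * (q + 1)) := by
      have e1 : ∀ i ∈ range N, ∀ j ∈ range N, max (c i + c j) 0 = max (c' i + c' j) 0 +
          s * ((if i < p then (1 : ℝ) else 0) * (if j < q then 1 else 0) +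
            (if i < q then 1 else 0) * (if j < p then 1 else 0)) := by
        intro i hi j hj
        rw [mem_range] at hi hj
        rcases lt_or_ge i p with i1 | i1
        · have i2 : i < q := by omega
          rcases lt_or_ge j p with j1 | j1
          · have j2 : j < q := by omega
            simp only [if_pos i1, if_pos i2, if_pos j1, if_pos j2]
            rw [max_eq_left (by linarith [hge i i1, hge j j1]),
              max_eq_left (by linarith [c'pos i i1, c'pos j j1]), c'1 i i1, c'1 j j1]
            ring
          · rcases lt_or_ge j q with j2 | j2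
            · simp only [if_pos i1, if_pos i2, if_neg (show ¬ j < p by omega), if_pos j2]
              rw [max_eq_left (by linarith [hge i i1, hmid j j1 j2]),
                max_eq_left (by linarith [c'pos i i1, c'2 j j1 j2]), c'1 i i1, c'2 j j1 j2,
                hmid j j1 j2]
              ring
            · simp only [if_neg (show ¬ j < p by omega), if_neg (show ¬ j < q by omega)]
              rw [c'1 i i1, c'3 j j2]
              simp only [mul_zero, add_zero]
              congr 1
              ring
        · rcases lt_or_ge i q with i2 | i2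
          · rcases lt_or_ge j p with j1 | j1
            · have j2 : j < q := by omega
              simp only [if_neg (show ¬ i < p by omega), if_pos i2, if_pos j1, if_pos j2]
              rw [max_eq_left (by linarith [hge j j1, hmid i i1 i2]),
                max_eq_left (by linarith [c'pos j j1, c'2 i i1 i2]), c'1 j j1, c'2 i i1 i2,
                hmid i i1 i2]
              ring
            · simp only [if_neg (show ¬ i < p by omega), if_neg (show ¬ j < p by omega)]
              have h1 : c j ≤ 0 := by
                rcases lt_or_ge j q with j2 | j2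
                · rw [hmid j j1 j2]
                · linarith [hle j j2 hj]
              have h2 : c' j ≤ 0 := by
                rcases lt_or_ge j q with j2 | j2
                · rw [c'2 j j1 j2]
                · exact c'neg j j2 hj
              rw [max_eq_right (by linarith [hmid i i1 i2]),
                max_eq_right (by linarith [c'2 i i1 i2])]
              ring
          · rcases lt_or_ge j p with j1 | j1
            · simp only [if_neg (show ¬ i < p by omega), if_neg (show ¬ i < q by omega)]
              rw [c'1 j j1, c'3 i i2]
              simp only [zero_mul, add_zero, mul_zero]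
              congr 1
              ring
            · simp only [if_neg (show ¬ i < p by omega), if_neg (show ¬ j < p by omega)]
              have h1 : c j ≤ 0 := by
                rcases lt_or_ge j q with j2 | j2
                · rw [hmid j j1 j2]
                · linarith [hle j j2 hj]
              have h2 : c' j ≤ 0 := by
                rcases lt_or_ge j q with j2 | j2
                · rw [c'2 j j1 j2]
                · exact c'neg j j2 hj
              rw [max_eq_right (by linarith [hle i i2 hi]),
                max_eq_right (by linarith [c'neg i i2 hi])]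
              ring
      have e2 : ∀ i ∈ range N, max (c i) 0 = max (c' i) 0 + s * (if i < p then (1 : ℝ) else 0) := by
        intro i hi
        rw [mem_range] at hi
        rcases lt_or_ge i p with i1 | i1
        · simp only [if_pos i1]
          rw [max_eq_left (by linarith [hge i i1]), max_eq_left (c'pos i i1), c'1 i i1]
          ring
        · simp only [if_neg (show ¬ i < p by omega)]
          rcases lt_or_ge i q with i2 | i2
          · rw [hmid i i1 i2, c'2 i i1 i2]; ring
          · rw [max_eq_right (by linarith [hle i i2 hi]), max_eq_right (c'neg i i2 hi)]; ring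
      have s1 : ∀ t, t ≤ N → ∑ i ∈ range N, (if i < t then (1 : ℝ) else 0) = t := by
        intro t ht
        rw [sum_ite_lt N t ht]
        simp
      unfold MM
      rw [sum_congr rfl fun i hi => sum_congr rfl fun j hj => e1 i hi j hj, sum_congr rfl e2]
      simp only [sum_add_distrib, ← mul_sum, ← sum_mul]
      rw [s1 p hpN, s1 q hqN]
      ring
    have hpq2 := hx p q hpq hqN
    have hfin : s * ((∑ i ∈ range p, x i) + (∑ i ∈ range q, x i) - ∑ i ∈ range N, x i) ≤
        s * (p * (q + 1)) := mul_le_mul_of_nonneg_left (by linarith) hs0.le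
    rw [hL, hR]
    linarith

/-- the support function bound -/
theorem support_le {N : ℕ} {x : ℕ → ℝ} (hx : Two N x) {c : ℕ → ℝ} (hc : Anti N c) :
    ∑ i ∈ range N, c i * x i ≤ MM N c :=
  layer N x hx _ c hc le_rfl

theorem support_eq (N : ℕ) (c : ℕ → ℝ) : ∑ i ∈ range N, c i * yv N c i = MM N c := by
  unfold yv MM
  have h1 : ∀ i, c i * (((((range N).filter fun j => 0 < c i + c j).card : ℝ)) +
      (if 0 < c i then 1 else 0)) =
      (∑ j ∈ range N, if 0 < c i + c j then c i else 0) + max (c i) 0 := by
    intro i
    rw [mul_add]
    congr 1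
    · rw [← sum_filter, sum_const, nsmul_eq_mul, mul_comm]
    · split_ifs with h
      · rw [max_eq_left h.le, mul_one]
      · rw [max_eq_right (not_lt.mp h), mul_zero]
  rw [sum_congr rfl fun i _ => h1 i, sum_add_distrib]
  congr 1
  have h2 : ∑ i ∈ range N, ∑ j ∈ range N, (if 0 < c i + c j then c i else 0) =
      ∑ i ∈ range N, ∑ j ∈ range N, (if 0 < c i + c j then c j else 0) := by
    rw [sum_comm]
    refine sum_congr rfl fun i _ => sum_congr rfl fun j _ => ?_
    rw [add_comm]
  have h3 : ∑ i ∈ range N, ∑ j ∈ range N, max (c i + c j) 0 =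
      ∑ i ∈ range N, ∑ j ∈ range N, (if 0 < c i + c j then c i else 0) +
      ∑ i ∈ range N, ∑ j ∈ range N, (if 0 < c i + c j then c j else 0) := by
    rw [← sum_add_distrib]
    refine sum_congr rfl fun i _ => ?_
    rw [← sum_add_distrib]
    refine sum_congr rfl fun j _ => ?_
    split_ifs with h
    · rw [max_eq_left h.le]
    · rw [max_eq_right (not_lt.mp h), add_zero]
  rw [h3, ← h2]
  ring

theorem yv_anti {N : ℕ} {c : ℕ → ℝ} (hc : Anti N c) : Anti N (yv N c) := by
  intro i j hij hj
  unfold yv
  have h := hc i j hij hj
  have h1 : (((range N).filter fun k => 0 < c j + c k).card : ℝ) ≤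
      (((range N).filter fun k => 0 < c i + c k).card : ℝ) := by
    have : ((range N).filter fun k => 0 < c j + c k) ⊆ ((range N).filter fun k => 0 < c i + c k) := by
      intro k hk
      rw [mem_filter] at hk ⊢
      exact ⟨hk.1, by linarith [hk.2]⟩
    exact_mod_cast card_le_card this
  have h2 : (if 0 < c j then (1 : ℝ) else 0) ≤ (if 0 < c i then 1 else 0) := by
    split_ifs with h3 h4 h4
    · exact le_rfl
    · exact absurd (lt_of_lt_of_le h3 h) h4
    · norm_num
    · exact le_rfl
  linarith

/-- Uniqueness of the maximiser for a strictly decreasing direction without vanishing sums. -/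
theorem unique_max {N : ℕ} {x : ℕ → ℝ} (hx : Two N x) {c : ℕ → ℝ}
    (hc : ∀ i j : ℕ, i < j → j < N → c j < c i)
    (hne : ∀ i j : ℕ, i < N → j < N → c i + c j ≠ 0)
    (heq : ∑ i ∈ range N, c i * x i = MM N c) : ∀ t, t < N → x t = yv N c t := by
  have hanti : Anti N c := by
    intro i j hij hj
    rcases eq_or_lt_of_le hij with h | h
    · rw [h]
    · exact (hc i j h hj).le
  -- a small number
  obtain ⟨δ, hδ0, hδ1, hδ2⟩ : ∃ δ : ℝ, 0 < δ ∧ (∀ i j : ℕ, i < j → j < N → δ < c i - c j) ∧
      (∀ i j : ℕ, i < N → j < N → 2 * δ < |c i + c j|) := by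
    let F : Finset ℝ := insert 1 (((range N ×ˢ range N).filter fun p => p.1 < p.2).image
      (fun p => c p.1 - c p.2) ∪ (range N ×ˢ range N).image fun p => |c p.1 + c p.2| / 2)
    have hF : F.Nonempty := insert_nonempty _ _
    obtain ⟨m, hm, hmin⟩ := exists_min_image F id hF
    have hmpos : 0 < m := by
      simp only [F, mem_insert, mem_union, mem_image, mem_filter, mem_product, mem_range] at hm
      rcases hm with rfl | ⟨p, ⟨⟨h1, h2⟩, h3⟩, rfl⟩ | ⟨p, ⟨h1, h2⟩, rfl⟩
      · norm_num
      · linarith [hc p.1 p.2 h3 h2]
      · have := abs_pos.mpr (hne p.1 p.2 h1 h2)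
        linarith
    refine ⟨m / 2, by linarith, fun i j hij hj => ?_, fun i j hi hj => ?_⟩
    · have h1 : c i - c j ∈ F := by
        simp only [F, mem_insert, mem_union, mem_image, mem_filter, mem_product, mem_range]
        exact Or.inr (Or.inl ⟨(i, j), ⟨⟨by omega, hj⟩, hij⟩, rfl⟩)
      have h2 := hmin _ h1
      simp only [id] at h2
      linarith
    · have h1 : |c i + c j| / 2 ∈ F := by
        simp only [F, mem_insert, mem_union, mem_image, mem_filter, mem_product, mem_range]
        exact Or.inr (Or.inr ⟨(i, j), ⟨hi, hj⟩, rfl⟩)
      have h2 := hmin _ h1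
      simp only [id] at h2
      linarith
  -- perturbation
  have key : ∀ t, t < N → ∀ ε : ℝ, |ε| ≤ δ / 2 → ε * x t ≤ ε * yv N c t := by
    intro t ht ε hε
    have hε' := abs_le.mp hε
    let d : ℕ → ℝ := fun i => c i + if i = t then ε else 0
    have hd : ∀ i, |d i - c i| ≤ δ / 2 := by
      intro i
      simp only [d]
      split_ifs
      · simpa using hε
      · simp; linarith
    have hdA : Anti N d := by
      intro i j hij hj
      rcases eq_or_lt_of_le hij with h | h
      · rw [h]
      · have h1 := hδ1 i j h hj
        have h2 := abs_le.mp (hd i)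
        have h3 := abs_le.mp (hd j)
        linarith
    have hsgn : ∀ i j, i < N → j < N → (0 < d i + d j ↔ 0 < c i + c j) := by
      intro i j hi hj
      have h1 := hδ2 i j hi hj
      have h2 := abs_le.mp (hd i)
      have h3 := abs_le.mp (hd j)
      rcases lt_or_ge 0 (c i + c j) with h4 | h4
      · rw [abs_of_pos h4] at h1
        exact ⟨fun _ => h4, fun _ => by linarith⟩
      · rw [abs_of_nonpos h4] at h1
        exact ⟨fun h => by linarith, fun h => by linarith⟩
    have hyd : ∀ i, i < N → yv N d i = yv N c i := by
      intro i hi
      unfold yv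
      have h1 : ((range N).filter fun j => 0 < d i + d j) =
          ((range N).filter fun j => 0 < c i + c j) := by
        apply filter_congr
        intro j hj
        exact hsgn i j hi (mem_range.mp hj)
      have h2 : (0 < d i ↔ 0 < c i) := by
        have := hsgn i i hi hi
        constructor
        · intro h; have := this.1 (by linarith); linarith
        · intro h; have := this.2 (by linarith); linarith
      rw [h1]
      simp only [h2]
    have h1 := support_le hx hdA
    have h2 := support_eq N d
    have h3 := support_eq N c
    have e1 : ∀ z : ℕ → ℝ, ∑ i ∈ range N, d i * z i = ∑ i ∈ range N, c i * z i + ε * z t := by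
      intro z
      simp only [d, add_mul, sum_add_distrib, ite_mul, zero_mul]
      rw [sum_ite_eq' (range N) t fun i => ε * z i, if_pos (mem_range.mpr ht)]
    rw [sum_congr rfl fun i hi => by rw [hyd i (mem_range.mp hi)]] at h2
    rw [e1] at h1 h2
    linarith
  intro t ht
  have h1 := key t ht (δ / 2) (by rw [abs_of_pos (by linarith)])
  have h2 := key t ht (-(δ / 2)) (by rw [abs_neg, abs_of_pos (by linarith)])
  nlinarith

end Pool.Agent.Helper98x.LapExt
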