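import Pool.Agent.Helper98x.LapExt.Graph

/-!
# Ordered Laplacian spectra
-/

set_option autoImplicit false

open Finset Polynomial

namespace Pool.Agent.Helper98x.LapExt

/-- a nonincreasing listing of the roots of the characteristic polynomial is the ordered spectrum -/
theorem ev_unique {V : Type*} [Fintype V] [DecidableEq V] {A : Matrix V V ℝ} (hA : A.IsHermitian)
    {m : ℕ} (h : Fintype.card V = m) (l : Fin m → ℝ) (hl : Antitone l)
    (hc : A.charpoly = ∏ i, (X - C (l i))) (i : Fin m) :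
    hA.eigenvalues₀ (Fin.cast h.symm i) = l i := by
  subst h
  have h1 := hA.sort_roots_charpoly_eq_eigenvalues₀
  have h2 : A.charpoly.roots = Multiset.map l Finset.univ.val := by
    rw [hc, Polynomial.roots_prod _ _ (Finset.prod_ne_zero_iff.mpr fun i _ => X_sub_C_ne_zero _)]
    simp
  have h3 : List.ofFn l = List.ofFn hA.eigenvalues₀ := by
    rw [← h1, h2]
    simp_rw [Fin.univ_val_map, Multiset.map_coe, List.map_ofFn, Multiset.coe_sort]
    symm
    have h4 : (RCLike.re ∘ l : Fin (Fintype.card V) → ℝ) = l := rfl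
    rw [h4]
    apply List.mergeSort_of_pairwise
    simp_rw [decide_eq_true_eq, ← List.sortedGE_iff_pairwise]
    exact hl.sortedGE_ofFn
  have := List.ofFn_injective h3
  rw [this]
  rfl

/-- ordered Laplacian spectrum of a graph on `Fin n` -/
noncomputable def la {n : ℕ} (G : SimpleGraph (Fin n)) [DecidableRel G.Adj] (i : Fin n) : ℝ :=
  (G.isHermitian_lapMatrix ℝ).eigenvalues₀ (Fin.cast (Fintype.card_fin n).symm i)

theorem la_anti {n : ℕ} (G : SimpleGraph (Fin n)) [DecidableRel G.Adj] : Antitone (la G) := by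
  intro i j hij
  exact (G.isHermitian_lapMatrix ℝ).eigenvalues₀_antitone (by simpa using hij)

theorem la_charpoly {n : ℕ} (G : SimpleGraph (Fin n)) [DecidableRel G.Adj] :
    (G.lapMatrix ℝ).charpoly = ∏ i, (X - C (la G i)) := by
  have hA := G.isHermitian_lapMatrix ℝ
  rw [hA.charpoly_eq]
  have h1 : ∏ i, (X - C ((hA.eigenvalues i : ℝ) : ℝ)) =
      ∏ i : Fin (Fintype.card (Fin n)), (X - C (hA.eigenvalues₀ i)) :=
    Equiv.prod_comp (Fintype.equivOfCardEq (Fintype.card_fin (Fintype.card (Fin n)))).symm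
      (fun i => (X - C (hA.eigenvalues₀ i)))
  have h2 : ∏ i : Fin n, (X - C (la G i)) =
      ∏ i : Fin (Fintype.card (Fin n)), (X - C (hA.eigenvalues₀ i)) :=
    Equiv.prod_comp (finCongr (Fintype.card_fin n).symm)
      (fun i => (X - C (hA.eigenvalues₀ i)))
  rw [h2, ← h1]
  rfl

theorem la_unique {n : ℕ} (G : SimpleGraph (Fin n)) [DecidableRel G.Adj] (l : Fin n → ℝ)
    (hl : Antitone l) (hc : (G.lapMatrix ℝ).charpoly = ∏ i, (X - C (l i))) : la G = l := by
  funext i
  exact ev_unique (G.isHermitian_lapMatrix ℝ) (Fintype.card_fin n) l hl hc i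

theorem la_nonneg {n : ℕ} (G : SimpleGraph (Fin n)) [DecidableRel G.Adj] (i : Fin n) :
    0 ≤ la G i := by
  have hA := G.isHermitian_lapMatrix ℝ
  have hpos : ∀ i, 0 ≤ hA.eigenvalues i := (G.posSemidef_lapMatrix ℝ).eigenvalues_nonneg
  have := hpos ((Fintype.equivOfCardEq (Fintype.card_fin _)) (Fin.cast (Fintype.card_fin n).symm i))
  simp only [Matrix.IsHermitian.eigenvalues, Equiv.symm_apply_apply] at this
  exact this

theorem la_sum {n : ℕ} (G : SimpleGraph (Fin n)) [DecidableRel G.Adj] :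
    ∑ i, la G i = 2 * (G.edgeFinset.card : ℝ) := by
  have hA := G.isHermitian_lapMatrix ℝ
  have h1 := hA.trace_eq_sum_eigenvalues
  have h2 : (G.lapMatrix ℝ).trace = ∑ v : Fin n, (G.degree v : ℝ) := by
    simp only [SimpleGraph.lapMatrix, Matrix.trace_sub, SimpleGraph.trace_adjMatrix, sub_zero,
      SimpleGraph.degMatrix, Matrix.trace_diagonal]
  have h3 : ∑ v : Fin n, (G.degree v : ℝ) = 2 * (G.edgeFinset.card : ℝ) := by
    exact_mod_cast G.sum_degrees_eq_twice_card_edges
  have h4 : ∑ i, hA.eigenvalues i = ∑ i : Fin (Fintype.card (Fin n)), hA.eigenvalues₀ i :=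
    Equiv.sum_comp (Fintype.equivOfCardEq (Fintype.card_fin (Fintype.card (Fin n)))).symm
      (fun i => hA.eigenvalues₀ i)
  have h5 : ∑ i : Fin n, la G i = ∑ i : Fin (Fintype.card (Fin n)), hA.eigenvalues₀ i :=
    Equiv.sum_comp (finCongr (Fintype.card_fin n).symm) (fun i => hA.eigenvalues₀ i)
  rw [h5, ← h4, ← h3, ← h2, h1]
  rfl

theorem la_last {N : ℕ} (G : SimpleGraph (Fin (N + 1))) [DecidableRel G.Adj] :
    la G (Fin.last N) = 0 := by
  have h1 := G.det_lapMatrix_eq_zero
  have h2 : (G.lapMatrix ℝ).charpoly.eval 0 = 0 := by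
    rw [Matrix.eval_charpoly]
    simp only [map_zero, zero_sub, Matrix.det_neg, h1, mul_zero]
  rw [la_charpoly, eval_prod, prod_eq_zero_iff] at h2
  obtain ⟨i, _, hi⟩ := h2
  simp only [eval_sub, eval_X, eval_C, zero_sub, neg_eq_zero] at hi
  apply le_antisymm _ (la_nonneg G _)
  rw [← hi]
  exact la_anti G (Fin.le_last i)

/-- extend a vector by zero -/
noncomputable def ext0 {n : ℕ} (x : Fin n → ℝ) (i : ℕ) : ℝ := if h : i < n then x ⟨i, h⟩ else 0

theorem ext0_val {n : ℕ} (x : Fin n → ℝ) (i : Fin n) : ext0 x i = x i := by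
  unfold ext0; rw [dif_pos i.isLt]

theorem sum_ext0 {n : ℕ} (x : Fin n → ℝ) : ∑ i ∈ range n, ext0 x i = ∑ i, x i := by
  rw [← Fin.sum_univ_eq_sum_range (fun i => ext0 x i)]
  exact sum_congr rfl fun i _ => ext0_val x i

theorem sum_ext0_ite {n : ℕ} (x : Fin n → ℝ) (k : ℕ) (hk : k ≤ n) :
    ∑ i ∈ range k, ext0 x i = ∑ i : Fin n, if (i : ℕ) < k then x i else 0 := by
  rw [← sum_ite_lt n k hk (fun i => ext0 x i)]
  rw [← Fin.sum_univ_eq_sum_range (fun i => if i < k then ext0 x i else 0)]
  exact sum_congr rfl fun i _ => by rw [ext0_val]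

/-- the polytope of the two-parameter inequalities -/
def Poly (N : ℕ) : Set (Fin (N + 1) → ℝ) :=
  {x | Antitone x ∧ x (Fin.last N) = 0 ∧ Two N (ext0 x)}

theorem two_la {N : ℕ} (G : SimpleGraph (Fin (N + 1))) [DecidableRel G.Adj] :
    Two N (ext0 (la G)) := by
  intro k l hkl hl
  have h1 := Pool.Agent.Helper827.Brou.twoParam G k l hkl (by rw [Fintype.card_fin]; omega)
  have h2 : ∀ k, k ≤ N → ∑ i ∈ range k, ext0 (la G) i =
      ∑ i : Fin (Fintype.card (Fin (N + 1))), if (i : ℕ) < k then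
        Pool.Agent.Helper827.Brou.ev G i else 0 := by
    intro k hk
    rw [sum_ext0_ite _ _ (by omega)]
    exact Equiv.sum_comp (finCongr (Fintype.card_fin (N + 1)).symm)
      (fun i => if (i : ℕ) < k then Pool.Agent.Helper827.Brou.ev G i else 0)
  have h3 : ∑ i ∈ range N, ext0 (la G) i = 2 * (G.edgeFinset.card : ℝ) := by
    rw [← la_sum, ← sum_ext0, sum_range_succ]
    have : ext0 (la G) N = la G (Fin.last N) := ext0_val (la G) (Fin.last N)
    rw [this, la_last, add_zero]
  rw [h2 k (by omega), h2 l (by omega), h3]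
  exact h1

theorem la_mem {N : ℕ} (G : SimpleGraph (Fin (N + 1))) [DecidableRel G.Adj] :
    la G ∈ Poly N := ⟨la_anti G, la_last G, two_la G⟩

/-- the spectrum of a graph built by the creation sequence `D` -/
theorem la_creat {N : ℕ} {e : Fin (N + 1) ≃ Fin (N + 1)} {D : ℕ → Bool}
    {G : SimpleGraph (Fin (N + 1))} [DecidableRel G.Adj] (h : Creat N e D G) (y : ℕ → ℝ)
    (hy : Anti N y) (hy0 : ∀ i, i < N → 0 ≤ y i)
    (hf : ∏ i ∈ range N, (X - C (y i)) = ∏ j ∈ Icc 1 N, (X - C (mu D N j))) :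
    la G = fun i : Fin (N + 1) => if (i : ℕ) < N then y i else 0 := by
  apply la_unique
  · intro i j hij
    have hij' : (i : ℕ) ≤ j := hij
    simp only
    split_ifs with h1 h2
    · exact hy i j hij' h1
    · omega
    · exact hy0 i (by omega)
    · exact le_rfl
  · rw [charpoly_creat h]
    rw [Fin.prod_univ_eq_prod_range (fun j => (X - C (nu D N j))) (N + 1),
      Fin.prod_univ_eq_prod_range (fun j => (X - C (if j < N then y j else 0))) (N + 1)]
    have e1 : ∏ j ∈ range (N + 1), (X - C (if j < N then y j else 0)) =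
        (∏ i ∈ range N, (X - C (y i))) * X := by
      rw [prod_range_succ, if_neg (lt_irrefl N), map_zero, sub_zero]
      congr 1
      exact prod_congr rfl fun j hj => by rw [if_pos (mem_range.mp hj)]
    have e2 : ∏ j ∈ range (N + 1), (X - C (nu D N j)) =
        (∏ j ∈ Icc 1 N, (X - C (mu D N j))) * X := by
      rw [prod_range_succ']
      have h0 : nu D N 0 = 0 := by simp [nu]
      rw [h0, map_zero, sub_zero]
      congr 1
      rw [show Icc 1 N = Ico (0 + 1) (N + 1) by ext; simp,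
        ← Finset.prod_Ico_add' (fun j => (X - C (mu D N j))) 0 N 1, Nat.Ico_zero_eq_range]
      refine prod_congr rfl fun j _ => ?_
      unfold nu
      rw [if_neg (by omega)]
    rw [e1, e2, hf]

end Pool.Agent.Helper98x.LapExt
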